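import Pool.Agent.H70.KP.Edg
import Pool.Agent.H70.KP.Stm
import Pool.Agent.H70.KP.RelD
import Pool.Agent.L0h93.Karp.EdgC

set_option autoImplicit false

/-! MP_257582_lc: certificate (generated). -/

namespace Pool.Agent.H70.KP.L.D0000_E1110

open Pool.Agent.H70.KP
open Pool.Agent.L0h93.Karp.M5 (gr entL gr_eq okD)
open Pool.Agent.H70.KP.R2 (RD okRT okRT_ok)

/-- table -/
noncomputable def clT_0 : Tr ℕ :=
  (.l (nat_lit 0))

/-- clauses -/
noncomputable def clT : Tr ℕ :=
  clT_0

/-- patterns -/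
noncomputable def enL : ℕ := nat_lit 0xf00e10f29100f29080f00f00f02680f02701f7fe11f01e11f17f01f002100ffef0081ef0081fe00803d0080ef0080fe00826f077fe80754880756f00740081fffe71f970e0780071f3fe71f02670716e70000ee0002670700070f3ff00f3d900f3fe80f3d881f0fc11f3fe81f01e20096f700970f008fdd073fe8075490073d881f8ffc1f8fdc07bd871f0fdc073d871f02681f00f01f00e10f2b700f2b680f16f00f16e10f00100f00010714900714880702681f17e11f17011f16f01f16e11f0fe11f000100bfef0097fe0097ef0096ef008ffd00800f077d880756e80742680716f00716e80700081fbfe71f82671f803c1f800707bfe70782671f0007073fe70714870016e7070267003fe7000fdc000007000000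

/-- pattern of a variable -/
noncomputable def ent (v : ℕ) : ℕ := entL enL v

/-- state -/
noncomputable def sT0 : ℕ := nat_lit 0x117584488

/-- state -/
noncomputable def sF0 : ℕ := nat_lit 0x1ffee8a7bb76

/-- relation -/
noncomputable def R0 : Rl :=
  .mk [nat_lit 257, nat_lit 513, nat_lit 1025, nat_lit 1282, nat_lit 1538, nat_lit 1793] [nat_lit 769, 
  nat_lit 11521, nat_lit 16129, nat_lit 16385, nat_lit 16642, nat_lit 16898] (nat_lit 8)

/-- source -/
noncomputable def Q0 : RD :=
  .m (nat_lit 3) (nat_lit 1867712) (nat_lit 28)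
  (.c (nat_lit 448) (nat_lit 192) (.c (nat_lit 3584) (nat_lit 96) (.c (nat_lit 28672) (nat_lit 48) 
  (.c (nat_lit 1835008) (nat_lit 24) .nil))))
  (nat_lit 0x2d00502d00602d00700000102d00b02d00302d00400900a03900b03900303900403000a02d00202d00902d00802d000)
  (nat_lit 0x716e70000ee000267070007073d87003fe7073fe70714870016e7070267000fdc000007) (nat_lit 0)

/-- relation -/
noncomputable def R1 : Rl :=
  .mk [nat_lit 1793, nat_lit 11777, nat_lit 16129, nat_lit 17153] [nat_lit 1025, nat_lit 2049, 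
  nat_lit 11521, nat_lit 17409] (nat_lit 4)

/-- source -/
noncomputable def Q1 : RD :=
  .m (nat_lit 4) (nat_lit 229312) (nat_lit 1835036)
  (.c (nat_lit 4032) (nat_lit 96) (.c (nat_lit 28672) (nat_lit 48) (.c (nat_lit 196608) (nat_lit 24) 
  .nil)))
  (nat_lit 0x2d00702d00000000102d00602d00302d00402d00502d002)
  (nat_lit 0x1f3fe7073d871f00070702671f02670700071f0fdc073fe7) (nat_lit 0)

/-- relation -/
noncomputable def R2 : Rl :=
  .mk [nat_lit 2561, nat_lit 3329, nat_lit 12289, nat_lit 17665] [nat_lit 2305, nat_lit 2817, 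
  nat_lit 3585, nat_lit 12033] (nat_lit 4)

/-- source -/
noncomputable def Q2 : RD :=
  .m (nat_lit 4) (nat_lit 229312) (nat_lit 1867804)
  (.c (nat_lit 4032) (nat_lit 96) (.c (nat_lit 28672) (nat_lit 48) (.c (nat_lit 196608) (nat_lit 24) 
  .nil)))
  (nat_lit 0x2d00602d00000000202d00702d00102d00402d00502d003)
  (nat_lit 0x7bd871fbfe71f80070782670780071f8fdc1f826707bfe7) (nat_lit 0)

/-- relation -/
noncomputable def R3 : Rl :=
  .mk [nat_lit 2817, nat_lit 3585, nat_lit 12545, nat_lit 17921] [nat_lit 3073, nat_lit 3329, 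
  nat_lit 12289, nat_lit 18177] (nat_lit 4)

/-- source -/
noncomputable def Q3 : RD :=
  .m (nat_lit 4) (nat_lit 32736) (nat_lit 2064412)
  (.c (nat_lit 32) (nat_lit 96) (.c (nat_lit 4032) (nat_lit 48) (.c (nat_lit 28672) (nat_lit 24) 
  .nil)))
  (nat_lit 0x2d00700000200900300000402d00100000602d00502d000)
  (nat_lit 0x1fffe71f8fdc1f82671f803c1f970e1f8ffc1fbfe71f8007) (nat_lit 0)

/-- relation -/
noncomputable def R4 : Rl :=
  .mk [nat_lit 3841, nat_lit 4097, nat_lit 4353, nat_lit 4609, nat_lit 12801, nat_lit 13057, 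
  nat_lit 18945, nat_lit 19201] [nat_lit 4865, nat_lit 5121, nat_lit 8449, nat_lit 8705, 
  nat_lit 8961, nat_lit 13313, nat_lit 18433, nat_lit 18689] (nat_lit 8)

/-- source -/
noncomputable def Q4 : RD :=
  .m (nat_lit 3) (nat_lit 32736) (nat_lit 1835009)
  (.c (nat_lit 32) (nat_lit 192) (.c (nat_lit 448) (nat_lit 96) (.c (nat_lit 3584) (nat_lit 48) 
  (.c (nat_lit 28672) (nat_lit 24) .nil))))
  (nat_lit 0x2d00702d00902d00802d00603900f03900502d00302d00e02d00d02d00402d00102d00b03900203900c02d00a02d000)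
  (nat_lit 0x756f0074008073fe8071490071488070268077d880756e8077fe8075488075490073d880742680716f00716e8070008) (nat_lit 0)

/-- relation -/
noncomputable def R5 : Rl :=
  .mk [nat_lit 5377, nat_lit 5889, nat_lit 13569, nat_lit 13825, nat_lit 14081, nat_lit 20481, 
  nat_lit 20737, nat_lit 20993] [nat_lit 5633, nat_lit 6145, nat_lit 6401, nat_lit 6657, 
  nat_lit 19457, nat_lit 19713, nat_lit 19969, nat_lit 20225] (nat_lit 8)

/-- source -/
noncomputable def Q5 : RD :=
  .m (nat_lit 3) (nat_lit 32736) (nat_lit 32797)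
  (.c (nat_lit 32) (nat_lit 192) (.c (nat_lit 448) (nat_lit 96) (.c (nat_lit 3584) (nat_lit 48) 
  (.c (nat_lit 28672) (nat_lit 24) .nil))))
  (nat_lit 0x900700000800900900900603000a00c00500900300000f02d00b00000200900100900e03900403000d02d00c009000)
  (nat_lit 0x803d0080ef0080fe00826f00bfef0097fe0097ef008ffd00ffef0081ef0081fe0096f700970f008fdd0096ef00800f) (nat_lit 0)

/-- relation -/
noncomputable def R6 : Rl :=
  .mk [nat_lit 6913, nat_lit 7425, nat_lit 7681, nat_lit 7937, nat_lit 14337, nat_lit 14849, 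
  nat_lit 21761, nat_lit 22017] [nat_lit 7169, nat_lit 8193, nat_lit 10753, nat_lit 11009, 
  nat_lit 11265, nat_lit 14593, nat_lit 21249, nat_lit 21505] (nat_lit 8)

/-- source -/
noncomputable def Q6 : RD :=
  .m (nat_lit 3) (nat_lit 32736) (nat_lit 2031617)
  (.c (nat_lit 32) (nat_lit 192) (.c (nat_lit 448) (nat_lit 96) (.c (nat_lit 3584) (nat_lit 48) 
  (.c (nat_lit 28672) (nat_lit 24) .nil))))
  (nat_lit 0x700000800900900000603000f00c00400900300000e02d00d00000500900100900a03000203000b02d00c000000)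
  (nat_lit 0x1f17f01f00211f3fe81f02681f00f01f00e11f17e11f0fe11f7fe11f01e11f0fc11f01e21f17011f16f01f16e11f0001) (nat_lit 0)

/-- relation -/
noncomputable def R7 : Rl :=
  .mk [nat_lit 3841, nat_lit 4097, nat_lit 4353, nat_lit 6913, nat_lit 7425, nat_lit 7681, 
  nat_lit 12801, nat_lit 14849, nat_lit 15361, nat_lit 15873, nat_lit 22273, nat_lit 22529, 
  nat_lit 22785, nat_lit 23041, nat_lit 23297, nat_lit 23553] [nat_lit 8449, nat_lit 8705, 
  nat_lit 8961, nat_lit 9217, nat_lit 9473, nat_lit 9729, nat_lit 9985, nat_lit 10241, nat_lit 10497, 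
  nat_lit 10753, nat_lit 11009, nat_lit 11265, nat_lit 13313, nat_lit 14593, nat_lit 15105, 
  nat_lit 15617] (nat_lit 16)

/-- source -/
noncomputable def Q7 : RD :=
  .m (nat_lit 3) (nat_lit 229312) (nat_lit 1835009)
  (.c (nat_lit 448) (nat_lit 384) (.c (nat_lit 3584) (nat_lit 192) (.c (nat_lit 28672) (nat_lit 96) 
  (.c (nat_lit 65536) (nat_lit 48) (.c (nat_lit 131072) (nat_lit 24) .nil)))))
  (nat_lit 0x2d01d02d00803900902d01c00000702d01e03901f02d00600900400901503901802d00100901900900f03900e02d01103000502d01703001603900203001a02d00d03000c03901202d01b02d00b03900a02d01000000300901303001402d000)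
  (nat_lit 0xf3d900f3d881f3fe8073fe81f02681f00f01f00e10f2b700f2b680f16f00f16e10f00100f00010714900714880702680f00e10f29100f29080f00f00f02680f02700f3ff00f3fe81f0fc1073d881f16f01f16e11f00010716f00716e8070008) (nat_lit 0)

/-- relations -/
noncomputable def rlT_0 : Tr Rl :=
  (.b (.b (.b (.l R0) (.l R4)) (.b (.l R2) (.l R6))) (.b (.b (.l R1) (.l R5)) (.b (.l R3) (.l R7))))

/-- sources -/
noncomputable def rdT_0 : Tr RD :=
  (.b (.b (.b (.l Q0) (.l Q4)) (.b (.l Q2) (.l Q6))) (.b (.b (.l Q1) (.l Q5)) (.b (.l Q3) (.l Q7))))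

theorem r_0 : okRT ent rdT_0 rlT_0 = true := by decide +kernel

/-- relations -/
noncomputable def rlT : Tr Rl :=
  rlT_0

/-- edges -/
noncomputable def E0 : ℕ := nat_lit 0x3e003d003c00370031003b003900370031003800340036003100350031003300310032002e002f

/-- codes -/
noncomputable def C0 : ℕ := nat_lit 0x281b028101ac940008b0240

theorem e0 : chkE ent (nat_lit 10) E0 C0 = true := by decide +kernel

/-- steps -/
noncomputable def I0_0 : List ℕ :=
  [nat_lit 0x3d0000e000003d00094000003e00078000003d00076000003c00082000003b00074001003a00066000003900062000003800054001003700056000003600044000003500034001003400048000003300024000003200014000003100038000003000028000002f00004000002e00018001002d00008]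

theorem p0 : runI E0 (fun j => gr rlT j) (fun j => gr clT j)
    (fun _ _ _ => false)
    (I0_0) (nat_lit 0) sT0 sF0 = true := by decide +kernel

theorem c0 {f : ℕ → ℤ} (h01 : ∀ m, f m = 0 ∨ f m = 1)
    (hf : ∀ i π a b, okD i π a b = true → f a ≤ f b)
    (hR : ∀ j, (gr rlT j).Hold (fun v => f (ent v)))
    (hs : Stt (fun v => f (ent v)) (fun j => gr clT j) (nat_lit 0) sT0 sF0) :
    False := by
  exact segL h01 hf ent _ _ hR e0 p0 hs

/-- variables -/
noncomputable def L0 : ℕ := nat_lit 0x20001c001a00190018001600140013000e000a00070003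

theorem l0 : allV (fun v => bif3 (okF1 (nat_lit 85) (nat_lit 127) (ent v)) true
    (List.elem (ent v) ([] : List ℕ))) (nat_lit 12) L0 = true := by decide +kernel

/-- variables -/
noncomputable def L1 : ℕ := nat_lit 0x2c002b002a002900280027002600250024002300220021001f001e001d001b00170015001200110010000f000d000c000b0009000800060005000400020001

theorem l1 : allV (fun v => bif3 (okF0 (nat_lit 85) (nat_lit 127) (ent v)) true
    (List.elem (ent v) ([] : List ℕ))) (nat_lit 32) L1 = true := by decide +kernel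

theorem i1 : Nat.beq (mkS (nat_lit 12) L0 (nat_lit 0)) sT0 = true := by decide +kernel

theorem i2 : Nat.beq (mkS (nat_lit 32) L1 (nat_lit 0)) sF0 = true := by decide +kernel

/-- the initial state is right -/
theorem init {x : ℕ → ℤ} (h1 : ∀ v, bif3 (okF1 (nat_lit 85) (nat_lit 127) (ent v)) true
    (List.elem (ent v) ([] : List ℕ)) = true → x v = 1)
    (h0 : ∀ v, bif3 (okF0 (nat_lit 85) (nat_lit 127) (ent v)) true
    (List.elem (ent v) ([] : List ℕ)) = true → x v = 0) :
    Stt x (fun j => gr clT j) (nat_lit 0) sT0 sF0 := by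
  have e1 := Nat.eq_of_beq_eq_true i1
  have e2 := Nat.eq_of_beq_eq_true i2
  rw [← e1, ← e2]
  refine ⟨fun j hj => absurd hj (Nat.not_lt_zero j), ?_⟩
  refine mkS_okT _ h1 _ _ _ _ l0 ?_
  refine mkS_okF _ h0 _ _ _ _ l1 ?_
  exact Ok.zero x

open Pool.Agent.H119R2.Kp Pool.Agent.N593.Karp Pool.Agent.L0h93.Karp Pool.Agent.L0h93.Karp.M5 in
/-- the relations hold -/
theorem hRel {n q : ℕ} {P : SimpleGraph (Fin n) → Prop} (hP : GP n q P) {r p : ℕ}
    (har : Ar n q r p) (j : ℕ) : (gr rlT j).Hold (fun v => fV P r p (ent v)) := by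
  rw [gr_eq]
  refine Tr.get_all _ rlT ?_ j
  exact okRT_ok hP har ent _ _ r_0

open Pool.Agent.H119R2.Kp Pool.Agent.N593.Karp Pool.Agent.L0h93.Karp Pool.Agent.L0h93.Karp.M5 in
/-- **the case is impossible** -/
theorem leaf (hF1 : S_F1) {n q : ℕ} {P : SimpleGraph (Fin n) → Prop} (hP : GP n q P)
    (hS : Star n P) {r p : ℕ} (har : Ar n q r p) (hc : Cse P r p 85 127) : False := by
  have h1 : ∀ v, bif3 (okF1 (nat_lit 85) (nat_lit 127) (ent v)) true
      (List.elem (ent v) ([] : List ℕ)) = true → fV P r p (ent v) = 1 := by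
    intro v h
    rcases bif3_c h with ⟨h, _⟩ | h
    · exact (hF1 n q P hP hS r p har 85 127 hc (ent v)).1 h
    · exact Bool.noConfusion h
  have h0 : ∀ v, bif3 (okF0 (nat_lit 85) (nat_lit 127) (ent v)) true
      (List.elem (ent v) ([] : List ℕ)) = true → fV P r p (ent v) = 0 := by
    intro v h
    rcases bif3_c h with ⟨h, _⟩ | h
    · exact (hF1 n q P hP hS r p har 85 127 hc (ent v)).2 h
    · exact Bool.noConfusion h
  have hs := init (x := fun v => fV P r p (ent v)) h1 h0
  have h01 : ∀ m, fV P r p m = 0 ∨ fV P r p m = 1 := fun m => fV01 r p m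
  have hf : ∀ i π a b, okD i π a b = true → fV P r p a ≤ fV P r p b :=
    fun i π a b h => dom hP r p har.hrp i π a b h
  have hR := hRel hP har
  exact c0 h01 hf hR hs

end Pool.Agent.H70.KP.L.D0000_E1110
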