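import Pool.Agent.H70.KP.Edg
import Pool.Agent.H70.KP.Stm
import Pool.Agent.H70.KP.RelD
import Pool.Agent.L0h93.Karp.EdgC

set_option autoImplicit false

/-! MP_257582_lc: certificate (generated). -/

namespace Pool.Agent.H70.KP.L.D0001_E011x

open Pool.Agent.H70.KP
open Pool.Agent.L0h93.Karp.M5 (gr entL gr_eq okD)
open Pool.Agent.H70.KP.R2 (RD okRT okRT_ok)

/-- table -/
noncomputable def clT_0 : Tr ℕ :=
  (.l (nat_lit 0))

/-- clauses -/
noncomputable def clT : Tr ℕ :=
  clT_0

/-- patterns -/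
noncomputable def enL : ℕ := nat_lit 0x1fffe307bd980780181f7fe3000fc30000031f82780782781f17111f02780702780002781fbff81f97111f8fe31f80231f8fc31f800307bff81f3ff81f0fe31f00231f0fc31f0003073ff8073d98070018003ff80003e6000000

/-- pattern of a variable -/
noncomputable def ent (v : ℕ) : ℕ := entL enL v

/-- state -/
noncomputable def sT0 : ℕ := nat_lit 0x3aeb4

/-- state -/
noncomputable def sF0 : ℕ := nat_lit 0x514a

/-- relation -/
noncomputable def R0 : Rl :=
  .mk [nat_lit 513, nat_lit 1025, nat_lit 4865, nat_lit 6145] [nat_lit 769, nat_lit 1281, nat_lit 4609, 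
  nat_lit 6401] (nat_lit 4)

/-- source -/
noncomputable def Q0 : RD :=
  .m (nat_lit 4) (nat_lit 1867712) (nat_lit 3)
  (.c (nat_lit 4032) (nat_lit 96) (.c (nat_lit 28672) (nat_lit 48) (.c (nat_lit 1835008) (nat_lit 24) 
  .nil)))
  (nat_lit 0x2d00502d00002d00100000702d00202d00602d004000003)
  (nat_lit 0xfc3000278073ff8070018000003070278073d98003ff8) (nat_lit 0)

/-- relation -/
noncomputable def R1 : Rl :=
  .mk [nat_lit 769, nat_lit 1281, nat_lit 1793, nat_lit 5121] [nat_lit 1025, nat_lit 1537, 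
  nat_lit 2561, nat_lit 4865] (nat_lit 4)

/-- source -/
noncomputable def Q1 : RD :=
  .m (nat_lit 4) (nat_lit 229312) (nat_lit 1835011)
  (.c (nat_lit 4032) (nat_lit 96) (.c (nat_lit 28672) (nat_lit 48) (.c (nat_lit 196608) (nat_lit 24) 
  .nil)))
  (nat_lit 0x2d00602d00100000202d00402d00302d00700000502d000)
  (nat_lit 0x702781f3ff81f0003073d981f02781f0fc3073ff8070018) (nat_lit 0)

/-- relation -/
noncomputable def R2 : Rl :=
  .mk [nat_lit 1537, nat_lit 2305, nat_lit 2561, nat_lit 5377] [nat_lit 1793, nat_lit 2049, 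
  nat_lit 5121, nat_lit 6657] (nat_lit 4)

/-- source -/
noncomputable def Q2 : RD :=
  .m (nat_lit 4) (nat_lit 32736) (nat_lit 2031619)
  (.c (nat_lit 32) (nat_lit 96) (.c (nat_lit 4032) (nat_lit 48) (.c (nat_lit 28672) (nat_lit 24) 
  .nil)))
  (nat_lit 0x700000100900300000502d00200000402d006000000)
  (nat_lit 0x1f7fe31f02781f00231f0fc31f17111f3ff81f0fe31f0003) (nat_lit 0)

/-- relation -/
noncomputable def R3 : Rl :=
  .mk [nat_lit 2817, nat_lit 3329, nat_lit 5889, nat_lit 6913] [nat_lit 3073, nat_lit 4353, 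
  nat_lit 5633, nat_lit 7169] (nat_lit 4)

/-- source -/
noncomputable def Q3 : RD :=
  .m (nat_lit 4) (nat_lit 229312) (nat_lit 1867779)
  (.c (nat_lit 4032) (nat_lit 96) (.c (nat_lit 28672) (nat_lit 48) (.c (nat_lit 196608) (nat_lit 24) 
  .nil)))
  (nat_lit 0x2d00502d00000000102d00702d00202d00600000402d003)
  (nat_lit 0x7bd980782781fbff81f80030780181f82781f8fc307bff8) (nat_lit 0)

/-- relation -/
noncomputable def R4 : Rl :=
  .mk [nat_lit 3073, nat_lit 3841, nat_lit 4097, nat_lit 4353] [nat_lit 3329, nat_lit 3585, 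
  nat_lit 5889, nat_lit 7425] (nat_lit 4)

/-- source -/
noncomputable def Q4 : RD :=
  .m (nat_lit 4) (nat_lit 32736) (nat_lit 2064387)
  (.c (nat_lit 32) (nat_lit 96) (.c (nat_lit 4032) (nat_lit 48) (.c (nat_lit 28672) (nat_lit 24) 
  .nil)))
  (nat_lit 0x700000100900200000502d00300000402d006000000)
  (nat_lit 0x1fffe31f82781f80231f8fc31fbff81f97111f8fe31f8003) (nat_lit 0)

/-- relations -/
noncomputable def rlT_0 : Tr Rl :=
  (.b (.b (.b (.l R0) (.l R4)) (.l R2)) (.b (.l R1) (.l R3)))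

/-- sources -/
noncomputable def rdT_0 : Tr RD :=
  (.b (.b (.b (.l Q0) (.l Q4)) (.l Q2)) (.b (.l Q1) (.l Q3)))

theorem r_0 : okRT ent rdT_0 rlT_0 = true := by decide +kernel

/-- relations -/
noncomputable def rlT : Tr Rl :=
  rlT_0

/-- edges -/
noncomputable def E0 : ℕ := nat_lit 0x15001600010012

/-- codes -/
noncomputable def C0 : ℕ := nat_lit 0x88080

theorem e0 : chkE ent (nat_lit 2) E0 C0 = true := by decide +kernel

/-- steps -/
noncomputable def I0_0 : List ℕ :=
  [nat_lit 0xc0000e000000c00046000001700038000001600014000001500028000001400018000001300008000001200004]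

theorem p0 : runI E0 (fun j => gr rlT j) (fun j => gr clT j)
    (fun _ _ _ => false)
    (I0_0) (nat_lit 0) sT0 sF0 = true := by decide +kernel

theorem c0 {f : ℕ → ℤ} (h01 : ∀ m, f m = 0 ∨ f m = 1)
    (hf : ∀ i π a b, okD i π a b = true → f a ≤ f b)
    (hR : ∀ j, (gr rlT j).Hold (fun v => f (ent v)))
    (hs : Stt (fun v => f (ent v)) (fun j => gr clT j) (nat_lit 0) sT0 sF0) :
    False := by
  exact segL h01 hf ent _ _ hR e0 p0 hs

/-- variables -/
noncomputable def L0 : ℕ := nat_lit 0x110010000f000d000b000a00090007000500040002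

theorem l0 : allV (fun v => bif3 (okF1 (nat_lit 213) (nat_lit 61) (ent v)) true
    (List.elem (ent v) ([] : List ℕ))) (nat_lit 11) L0 = true := by decide +kernel

/-- variables -/
noncomputable def L1 : ℕ := nat_lit 0xe000c0008000600030001

theorem l1 : allV (fun v => bif3 (okF0 (nat_lit 213) (nat_lit 61) (ent v)) true
    (List.elem (ent v) ([] : List ℕ))) (nat_lit 6) L1 = true := by decide +kernel

theorem i1 : Nat.beq (mkS (nat_lit 11) L0 (nat_lit 0)) sT0 = true := by decide +kernel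

theorem i2 : Nat.beq (mkS (nat_lit 6) L1 (nat_lit 0)) sF0 = true := by decide +kernel

/-- the initial state is right -/
theorem init {x : ℕ → ℤ} (h1 : ∀ v, bif3 (okF1 (nat_lit 213) (nat_lit 61) (ent v)) true
    (List.elem (ent v) ([] : List ℕ)) = true → x v = 1)
    (h0 : ∀ v, bif3 (okF0 (nat_lit 213) (nat_lit 61) (ent v)) true
    (List.elem (ent v) ([] : List ℕ)) = true → x v = 0) :
    Stt x (fun j => gr clT j) (nat_lit 0) sT0 sF0 := by
  have e1 := Nat.eq_of_beq_eq_true i1
  have e2 := Nat.eq_of_beq_eq_true i2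
  rw [← e1, ← e2]
  refine ⟨fun j hj => absurd hj (Nat.not_lt_zero j), ?_⟩
  refine mkS_okT _ h1 _ _ _ _ l0 ?_
  refine mkS_okF _ h0 _ _ _ _ l1 ?_
  exact Ok.zero x

open Pool.Agent.H119R2.Kp Pool.Agent.N593.Karp Pool.Agent.L0h93.Karp Pool.Agent.L0h93.Karp.M5 in
/-- the relations hold -/
theorem hRel {n q : ℕ} {P : SimpleGraph (Fin n) → Prop} (hP : GP n q P) {r p : ℕ}
    (har : Ar n q r p) (j : ℕ) : (gr rlT j).Hold (fun v => fV P r p (ent v)) := by
  rw [gr_eq]
  refine Tr.get_all _ rlT ?_ j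
  exact okRT_ok hP har ent _ _ r_0

open Pool.Agent.H119R2.Kp Pool.Agent.N593.Karp Pool.Agent.L0h93.Karp Pool.Agent.L0h93.Karp.M5 in
/-- **the case is impossible** -/
theorem leaf (hF1 : S_F1) {n q : ℕ} {P : SimpleGraph (Fin n) → Prop} (hP : GP n q P)
    (hS : Star n P) {r p : ℕ} (har : Ar n q r p) (hc : Cse P r p 213 61) : False := by
  have h1 : ∀ v, bif3 (okF1 (nat_lit 213) (nat_lit 61) (ent v)) true
      (List.elem (ent v) ([] : List ℕ)) = true → fV P r p (ent v) = 1 := by
    intro v h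
    rcases bif3_c h with ⟨h, _⟩ | h
    · exact (hF1 n q P hP hS r p har 213 61 hc (ent v)).1 h
    · exact Bool.noConfusion h
  have h0 : ∀ v, bif3 (okF0 (nat_lit 213) (nat_lit 61) (ent v)) true
      (List.elem (ent v) ([] : List ℕ)) = true → fV P r p (ent v) = 0 := by
    intro v h
    rcases bif3_c h with ⟨h, _⟩ | h
    · exact (hF1 n q P hP hS r p har 213 61 hc (ent v)).2 h
    · exact Bool.noConfusion h
  have hs := init (x := fun v => fV P r p (ent v)) h1 h0
  have h01 : ∀ m, fV P r p m = 0 ∨ fV P r p m = 1 := fun m => fV01 r p m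
  have hf : ∀ i π a b, okD i π a b = true → fV P r p a ≤ fV P r p b :=
    fun i π a b h => dom hP r p har.hrp i π a b h
  have hR := hRel hP har
  exact c0 h01 hf hR hs

end Pool.Agent.H70.KP.L.D0001_E011x
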