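import Pool.Agent.H70.KP.Edg
import Pool.Agent.H70.KP.Stm
import Pool.Agent.H70.KP.RelD
import Pool.Agent.L0h93.Karp.EdgC

set_option autoImplicit false

/-! MP_257582_lc: certificate (generated). -/

namespace Pool.Agent.H70.KP.L.D0001_E111x

open Pool.Agent.H70.KP
open Pool.Agent.L0h93.Karp.M5 (gr entL gr_eq okD)
open Pool.Agent.H70.KP.R2 (RD okRT okRT_ok)

/-- table -/
noncomputable def clT_0 : Tr ℕ :=
  (.l (nat_lit 0))

/-- clauses -/
noncomputable def clT : Tr ℕ :=
  clT_0

/-- patterns -/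
noncomputable def enL : ℕ := nat_lit 0xfe9ef0fe9fe0f97ef0feb770feb6f0f97fe07bfef0796ef0796f707800f0fe9e10f97e10feb680fbfe80f96e10fab680f80010fbff80f80f10f82780f80111fbff807bd980780180780071fbfef1f96ef1f80fe1f800f1fffe71f970e1f7fe31f0fc31f00031f8fe307fd981f97f107d6f807c2780f971e0f811e0f970f0f810f07c26f07c00f07bd8f0794970fbd880fe9010f97010fa9180fab780f96f10782781f827807bd871f803d1f970f1f96f71f8fdc1f8ffc1f02781f17110f97111f97fe1f97ef1f8ffd0ffff70fffef0fe9170fe90f0f81fe0f81ef07fd8f07d6f707d6ef07ffef07d49707d48f07948f07826f0fffe10fa9080f82680f81e10f81010f80e10ffff10fe9110fbd980f81f10f81111f8fc31f800307bff81f800707bfe70782671fffef1f8fdd1f826f1f81fe1f81ef1f80ef1fbfe71f82671f803c1f3ff81f0fe31f00231f81e30feb780fe9f10f97f107d4981fffe31f97111f802307fff807c018000000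

/-- pattern of a variable -/
noncomputable def ent (v : ℕ) : ℕ := entL enL v

/-- state -/
noncomputable def sT0 : ℕ := nat_lit 0x1fffc93d56d37f4

/-- state -/
noncomputable def sF0 : ℕ := nat_lit 0x36c2a92c80a

/-- relation -/
noncomputable def R0 : Rl :=
  .mk [nat_lit 257, nat_lit 769, nat_lit 7682, nat_lit 8194, nat_lit 8450, nat_lit 14594, nat_lit 21250, 
  nat_lit 21506, nat_lit 21761, nat_lit 22017] [nat_lit 513, nat_lit 1025, nat_lit 1281, 
  nat_lit 1538, nat_lit 1794, nat_lit 2050, nat_lit 2306, nat_lit 2562, nat_lit 7426, nat_lit 20993] (nat_lit 16)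

/-- source -/
noncomputable def Q0 : RD :=
  .m (nat_lit 3) (nat_lit 229312) (nat_lit 1867811)
  (.c (nat_lit 448) (nat_lit 384) (.c (nat_lit 3584) (nat_lit 192) (.c (nat_lit 28672) (nat_lit 96) 
  (.c (nat_lit 65536) (nat_lit 48) (.c (nat_lit 131072) (nat_lit 24) .nil)))))
  (nat_lit 0xc00900403000402d00a00000900900f03000f02d00800900700900e03901002d00600001100900203000302d00d03000702d01003000e03900600c01100900303000203900d00900b00900503000502d01300000100901203001202d000)
  (nat_lit 0x7c2780f81111f81e30feb780fe9f10f97f107d4981fffe31f971107fff81f8fe307fd981f97f107d6f80f97110ffff10fe9110f81f11f802307c018) (nat_lit 0)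

/-- relation -/
noncomputable def R1 : Rl :=
  .mk [nat_lit 3073, nat_lit 3329, nat_lit 14849, nat_lit 22273] [nat_lit 2817, nat_lit 15105, 
  nat_lit 22529, nat_lit 22785] (nat_lit 4)

/-- source -/
noncomputable def Q1 : RD :=
  .m (nat_lit 4) (nat_lit 32736) (nat_lit 2031619)
  (.c (nat_lit 32) (nat_lit 96) (.c (nat_lit 4032) (nat_lit 48) (.c (nat_lit 28672) (nat_lit 24) 
  .nil)))
  (nat_lit 0x700000000900200000402d00100000602d005000003)
  (nat_lit 0x1f7fe31f0fc31f02781f00231f00031f17111f3ff81f0fe3) (nat_lit 0)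

/-- relation -/
noncomputable def R2 : Rl :=
  .mk [nat_lit 4097, nat_lit 6401, nat_lit 15361, nat_lit 23041] [nat_lit 3585, nat_lit 3841, 
  nat_lit 15617, nat_lit 23297] (nat_lit 4)

/-- source -/
noncomputable def Q2 : RD :=
  .m (nat_lit 4) (nat_lit 32736) (nat_lit 2064412)
  (.c (nat_lit 32) (nat_lit 96) (.c (nat_lit 4032) (nat_lit 48) (.c (nat_lit 28672) (nat_lit 24) 
  .nil)))
  (nat_lit 0x2d00700000200900300000402d00000000602d00502d001)
  (nat_lit 0x1fffe71f8fdc1f82671f803c1f970e1f8ffc1f80071fbfe7) (nat_lit 0)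

/-- relation -/
noncomputable def R3 : Rl :=
  .mk [nat_lit 4609, nat_lit 4865, nat_lit 5377, nat_lit 5633, nat_lit 15873, nat_lit 16129, 
  nat_lit 23553, nat_lit 24065] [nat_lit 4353, nat_lit 5121, nat_lit 13825, nat_lit 14081, 
  nat_lit 14337, nat_lit 16385, nat_lit 23809, nat_lit 24321] (nat_lit 8)

/-- source -/
noncomputable def Q3 : RD :=
  .m (nat_lit 3) (nat_lit 32736) (nat_lit 2064413)
  (.c (nat_lit 32) (nat_lit 192) (.c (nat_lit 448) (nat_lit 96) (.c (nat_lit 3584) (nat_lit 48) 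
  (.c (nat_lit 28672) (nat_lit 24) .nil))))
  (nat_lit 0x900300000a00900b00900003000c00c00100900500000d02d00f00000200900700900803900403000e02d009009006)
  (nat_lit 0x1fbfef1f80fe1f803d1f97fe1f97ef1f8ffd1f826f1f80ef1f96ef1f800f1f970f1f96f71fffef1f8fdd1f81fe1f81ef) (nat_lit 0)

/-- relation -/
noncomputable def R4 : Rl :=
  .mk [nat_lit 3841, nat_lit 6145, nat_lit 15617, nat_lit 24577] [nat_lit 4097, nat_lit 5889, 
  nat_lit 6401, nat_lit 16641] (nat_lit 4)

/-- source -/
noncomputable def Q4 : RD :=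
  .m (nat_lit 4) (nat_lit 229312) (nat_lit 1867804)
  (.c (nat_lit 4032) (nat_lit 96) (.c (nat_lit 28672) (nat_lit 48) (.c (nat_lit 196608) (nat_lit 24) 
  .nil)))
  (nat_lit 0x2d00402d00100000202d00702d00002d00502d00602d003)
  (nat_lit 0x7bd871f80070782671fbfe70780071f8fdc07bfe71f8267) (nat_lit 0)

/-- relation -/
noncomputable def R5 : Rl :=
  .mk [nat_lit 6657, nat_lit 7169, nat_lit 16897, nat_lit 24833] [nat_lit 6913, nat_lit 17153, 
  nat_lit 25089, nat_lit 25345] (nat_lit 4)

/-- source -/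
noncomputable def Q5 : RD :=
  .m (nat_lit 4) (nat_lit 229312) (nat_lit 1867779)
  (.c (nat_lit 4032) (nat_lit 96) (.c (nat_lit 28672) (nat_lit 48) (.c (nat_lit 196608) (nat_lit 24) 
  .nil)))
  (nat_lit 0x2d00702d00000000102d00602d00202d00500000402d003)
  (nat_lit 0x1fbff807bd980782781f80030780181f82781f8fc307bff8) (nat_lit 0)

/-- relation -/
noncomputable def R6 : Rl :=
  .mk [nat_lit 7681, nat_lit 7937, nat_lit 8193, nat_lit 8449, nat_lit 14593, nat_lit 17409, 
  nat_lit 17665, nat_lit 25601] [nat_lit 1793, nat_lit 2049, nat_lit 2305, nat_lit 7425, 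
  nat_lit 17921, nat_lit 25857, nat_lit 26113, nat_lit 26369] (nat_lit 8)

/-- source -/
noncomputable def Q6 : RD :=
  .m (nat_lit 3) (nat_lit 32736) (nat_lit 1933315)
  (.c (nat_lit 32) (nat_lit 192) (.c (nat_lit 448) (nat_lit 96) (.c (nat_lit 3584) (nat_lit 48) 
  (.c (nat_lit 28672) (nat_lit 24) .nil))))
  (nat_lit 0x900300900900900800900002d00a00900200900400900b02d00f02d00100900500900e02d00602d00c02d00d009007)
  (nat_lit 0xfbff80f80f10f82780fa9180f81110feb780fe9f10f97f10f80110fab780f96f10f97110ffff10fe9110fbd980f81f1) (nat_lit 0)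

/-- relation -/
noncomputable def R7 : Rl :=
  .mk [nat_lit 9217, nat_lit 9985, nat_lit 18177, nat_lit 18433, nat_lit 18689, nat_lit 26625, 
  nat_lit 26881, nat_lit 27137] [nat_lit 8705, nat_lit 8961, nat_lit 9473, nat_lit 9729, 
  nat_lit 27393, nat_lit 27649, nat_lit 27905, nat_lit 28161] (nat_lit 8)

/-- source -/
noncomputable def Q7 : RD :=
  .m (nat_lit 3) (nat_lit 32736) (nat_lit 1933313)
  (.c (nat_lit 32) (nat_lit 192) (.c (nat_lit 448) (nat_lit 96) (.c (nat_lit 3584) (nat_lit 48) 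
  (.c (nat_lit 28672) (nat_lit 24) .nil))))
  (nat_lit 0x900100900f00900e00900002d00d00900300900200900902d00c02d00400900700900802d00602d00b02d00a009005)
  (nat_lit 0xfe9e10f97e10feb680fbfe80fa9080f82680f81010f80e10f96e10fab680f80010fbd880fe9010f97010fffe10f81e1) (nat_lit 0)

/-- relation -/
noncomputable def R8 : Rl :=
  .mk [nat_lit 10753, nat_lit 11009, nat_lit 11265, nat_lit 19201, nat_lit 19713, nat_lit 28417, 
  nat_lit 28673, nat_lit 28929] [nat_lit 10241, nat_lit 10497, nat_lit 11521, nat_lit 11777, 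
  nat_lit 12033, nat_lit 18945, nat_lit 19457, nat_lit 29185] (nat_lit 8)

/-- source -/
noncomputable def Q8 : RD :=
  .m (nat_lit 3) (nat_lit 32736) (nat_lit 1867805)
  (.c (nat_lit 32) (nat_lit 192) (.c (nat_lit 448) (nat_lit 96) (.c (nat_lit 3584) (nat_lit 48) 
  (.c (nat_lit 28672) (nat_lit 24) .nil))))
  (nat_lit 0x2d00202d00c02d00a02d00003900b03900102d00402d00e02d00f02d00302d00702d00903900603900d02d00802d005)
  (nat_lit 0x7bfef07c00f07949707fd8f07d6f707d6ef07948f07826f0796ef0796f707800f07c26f07bd8f07ffef07d49707d48f) (nat_lit 0)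

/-- relation -/
noncomputable def R9 : Rl :=
  .mk [nat_lit 11521, nat_lit 11777, nat_lit 12033, nat_lit 12289, nat_lit 12545, nat_lit 12801, 
  nat_lit 13057, nat_lit 13313, nat_lit 13569, nat_lit 13825, nat_lit 14081, nat_lit 14337, 
  nat_lit 16385, nat_lit 19457, nat_lit 20225, nat_lit 20737] [nat_lit 4609, nat_lit 4865, 
  nat_lit 5633, nat_lit 10753, nat_lit 11009, nat_lit 11265, nat_lit 16129, nat_lit 19713, 
  nat_lit 19969, nat_lit 20481, nat_lit 29441, nat_lit 29697, nat_lit 29953, nat_lit 30209, 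
  nat_lit 30465, nat_lit 30721] (nat_lit 16)

/-- source -/
noncomputable def Q9 : RD :=
  .m (nat_lit 3) (nat_lit 229312) (nat_lit 1867837)
  (.c (nat_lit 448) (nat_lit 384) (.c (nat_lit 3584) (nat_lit 192) (.c (nat_lit 28672) (nat_lit 96) 
  (.c (nat_lit 65536) (nat_lit 48) (.c (nat_lit 131072) (nat_lit 24) .nil)))))
  (nat_lit 0x901200900703900802d01500000900901f03001e02d00200900a00901d03901c02d00000901000900303900602d01303000b02d01b03001a03900100c01100900503000403901400901600900e03000f02d01700000c00901803001902d00d)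
  (nat_lit 0xfe9ef0fe9fe0f97ef0feb770feb6f0f97fe0f811e0f810f07c26f1f970f07ffef07d49707d48f1fffef1f81fe1f81ef0f971e0f970f07c00f1f803d1f97fe1f97ef1f8ffd0ffff70fffef0fe9170fe90f0f81fe0f81ef07fd8f07d6f707d6ef) (nat_lit 0)

/-- relations -/
noncomputable def rlT_0 : Tr Rl :=
  (.b (.b (.b (.b (.l R0) (.l R8)) (.l R4)) (.b (.l R2) (.l R6))) (.b (.b (.b (.l R1) (.l R9)) 
  (.l R5)) (.b (.l R3) (.l R7))))

/-- sources -/
noncomputable def rdT_0 : Tr RD :=
  (.b (.b (.b (.b (.l Q0) (.l Q8)) (.l Q4)) (.b (.l Q2) (.l Q6))) (.b (.b (.b (.l Q1) (.l Q9)) 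
  (.l Q5)) (.b (.l Q3) (.l Q7))))

theorem r_0 : okRT ent rdT_0 rlT_0 = true := by decide +kernel

/-- relations -/
noncomputable def rlT : Tr Rl :=
  rlT_0

/-- edges -/
noncomputable def E0 : ℕ := nat_lit 0x510050004f00430049004e0049004c004b00410049004a004800460047004300450043004400430042003b003f003b003e003b003c003b003a0039

/-- codes -/
noncomputable def C0 : ℕ := nat_lit 0x8810c32000a062088000080008800200280

theorem e0 : chkE ent (nat_lit 15) E0 C0 = true := by decide +kernel

/-- steps -/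
noncomputable def I0_0 : List ℕ :=
  [nat_lit 0x500000e0000050000e4000005100098000005000096000004f000d2000004e000c4000004d00088000004c000b4000004b000a2000004a00094000004900078000004800082000004700072000004600066000004500062000004400052000004300056000004200042000004100046000004000036000003f00032000003e00022000003d00026000003c00012000003b00016000003a00002001003900006]

theorem p0 : runI E0 (fun j => gr rlT j) (fun j => gr clT j)
    (fun _ _ _ => false)
    (I0_0) (nat_lit 0) sT0 sF0 = true := by decide +kernel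

theorem c0 {f : ℕ → ℤ} (h01 : ∀ m, f m = 0 ∨ f m = 1)
    (hf : ∀ i π a b, okD i π a b = true → f a ≤ f b)
    (hR : ∀ j, (gr rlT j).Hold (fun v => f (ent v)))
    (hs : Stt (fun v => f (ent v)) (fun j => gr clT j) (nat_lit 0) sT0 sF0) :
    False := by
  exact segL h01 hf ent _ _ hR e0 p0 hs

/-- variables -/
noncomputable def L0 : ℕ := nat_lit 0x3800370036003500340033003200310030002f002e002d002c002b002a0027002400210020001f001e001c001a001800160015001300120010000d000c000a0009000800070006000500040002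

theorem l0 : allV (fun v => bif3 (okF1 (nat_lit 213) (nat_lit 63) (ent v)) true
    (List.elem (ent v) ([] : List ℕ))) (nat_lit 39) L0 = true := by decide +kernel

/-- variables -/
noncomputable def L1 : ℕ := nat_lit 0x2900280026002500230022001d001b0019001700140011000f000e000b00030001

theorem l1 : allV (fun v => bif3 (okF0 (nat_lit 213) (nat_lit 63) (ent v)) true
    (List.elem (ent v) ([] : List ℕ))) (nat_lit 17) L1 = true := by decide +kernel

theorem i1 : Nat.beq (mkS (nat_lit 39) L0 (nat_lit 0)) sT0 = true := by decide +kernel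

theorem i2 : Nat.beq (mkS (nat_lit 17) L1 (nat_lit 0)) sF0 = true := by decide +kernel

/-- the initial state is right -/
theorem init {x : ℕ → ℤ} (h1 : ∀ v, bif3 (okF1 (nat_lit 213) (nat_lit 63) (ent v)) true
    (List.elem (ent v) ([] : List ℕ)) = true → x v = 1)
    (h0 : ∀ v, bif3 (okF0 (nat_lit 213) (nat_lit 63) (ent v)) true
    (List.elem (ent v) ([] : List ℕ)) = true → x v = 0) :
    Stt x (fun j => gr clT j) (nat_lit 0) sT0 sF0 := by
  have e1 := Nat.eq_of_beq_eq_true i1
  have e2 := Nat.eq_of_beq_eq_true i2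
  rw [← e1, ← e2]
  refine ⟨fun j hj => absurd hj (Nat.not_lt_zero j), ?_⟩
  refine mkS_okT _ h1 _ _ _ _ l0 ?_
  refine mkS_okF _ h0 _ _ _ _ l1 ?_
  exact Ok.zero x

open Pool.Agent.H119R2.Kp Pool.Agent.N593.Karp Pool.Agent.L0h93.Karp Pool.Agent.L0h93.Karp.M5 in
/-- the relations hold -/
theorem hRel {n q : ℕ} {P : SimpleGraph (Fin n) → Prop} (hP : GP n q P) {r p : ℕ}
    (har : Ar n q r p) (j : ℕ) : (gr rlT j).Hold (fun v => fV P r p (ent v)) := by
  rw [gr_eq]
  refine Tr.get_all _ rlT ?_ j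
  exact okRT_ok hP har ent _ _ r_0

open Pool.Agent.H119R2.Kp Pool.Agent.N593.Karp Pool.Agent.L0h93.Karp Pool.Agent.L0h93.Karp.M5 in
/-- **the case is impossible** -/
theorem leaf (hF1 : S_F1) {n q : ℕ} {P : SimpleGraph (Fin n) → Prop} (hP : GP n q P)
    (hS : Star n P) {r p : ℕ} (har : Ar n q r p) (hc : Cse P r p 213 63) : False := by
  have h1 : ∀ v, bif3 (okF1 (nat_lit 213) (nat_lit 63) (ent v)) true
      (List.elem (ent v) ([] : List ℕ)) = true → fV P r p (ent v) = 1 := by
    intro v h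
    rcases bif3_c h with ⟨h, _⟩ | h
    · exact (hF1 n q P hP hS r p har 213 63 hc (ent v)).1 h
    · exact Bool.noConfusion h
  have h0 : ∀ v, bif3 (okF0 (nat_lit 213) (nat_lit 63) (ent v)) true
      (List.elem (ent v) ([] : List ℕ)) = true → fV P r p (ent v) = 0 := by
    intro v h
    rcases bif3_c h with ⟨h, _⟩ | h
    · exact (hF1 n q P hP hS r p har 213 63 hc (ent v)).2 h
    · exact Bool.noConfusion h
  have hs := init (x := fun v => fV P r p (ent v)) h1 h0
  have h01 : ∀ m, fV P r p m = 0 ∨ fV P r p m = 1 := fun m => fV01 r p m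
  have hf : ∀ i π a b, okD i π a b = true → fV P r p a ≤ fV P r p b :=
    fun i π a b h => dom hP r p har.hrp i π a b h
  have hR := hRel hP har
  exact c0 h01 hf hR hs

end Pool.Agent.H70.KP.L.D0001_E111x
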