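import Pool.Agent.H70.KP.Edg
import Pool.Agent.H70.KP.Stm
import Pool.Agent.H70.KP.RelD
import Pool.Agent.L0h93.Karp.EdgC

set_option autoImplicit false

/-! MP_257582_lc: certificate (generated). -/

namespace Pool.Agent.H70.KP.L.D1001_E000x

open Pool.Agent.H70.KP
open Pool.Agent.L0h93.Karp.M5 (gr entL gr_eq okD)
open Pool.Agent.H70.KP.R2 (RD okRT okRT_ok)

/-- table -/
noncomputable def clT_0 : Tr ℕ :=
  (.l (nat_lit 0))

/-- clauses -/
noncomputable def clT : Tr ℕ :=
  clT_0

/-- patterns -/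
noncomputable def enL : ℕ := nat_lit 0x1f8fe31f97f11fbff81f80f11f8fe11f97e11f97f01fbfe81f80e11f96f01f80011f82781f97011f81e21f80031f96f11f81e31fffe31f97111f8fc31f80231fffe11f96e11f8fc11f82680301c11f81e11f80f01f8021000000

/-- pattern of a variable -/
noncomputable def ent (v : ℕ) : ℕ := entL enL v

/-- state -/
noncomputable def sT0 : ℕ := nat_lit 0x7dd8

/-- state -/
noncomputable def sF0 : ℕ := nat_lit 0x8226

/-- relation -/
noncomputable def R0 : Rl :=
  .mk [nat_lit 769, nat_lit 1537, nat_lit 1793, nat_lit 2049, nat_lit 4097, nat_lit 4353, nat_lit 4865, 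
  nat_lit 5121] [nat_lit 257, nat_lit 513, nat_lit 1281, nat_lit 5377, nat_lit 5633, nat_lit 5889, 
  nat_lit 6145, nat_lit 6401] (nat_lit 8)

/-- source -/
noncomputable def Q0 : RD :=
  .m (nat_lit 3) (nat_lit 32736) (nat_lit 2064385)
  (.c (nat_lit 32) (nat_lit 192) (.c (nat_lit 448) (nat_lit 96) (.c (nat_lit 3584) (nat_lit 48) 
  (.c (nat_lit 28672) (nat_lit 24) .nil))))
  (nat_lit 0x300000f00900e00000003000d00c00400900500000802d00c00000100900200900b03000703000902d00a000006)
  (nat_lit 0x1f8fe11f97e11f97f01fbfe81f80e11f82681f80f01f80211f96f01f80011f97011f81e21fffe11f96e11f8fc11f81e1) (nat_lit 0)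

/-- relation -/
noncomputable def R1 : Rl :=
  .mk [nat_lit 2561, nat_lit 2817, nat_lit 3073, nat_lit 3330, nat_lit 3586, nat_lit 3841] [nat_lit 2305, 
  nat_lit 4609, nat_lit 6658, nat_lit 6913, nat_lit 7170, nat_lit 7425] (nat_lit 8)

/-- source -/
noncomputable def Q1 : RD :=
  .m (nat_lit 3) (nat_lit 32736) (nat_lit 2064387)
  (.c (nat_lit 32) (nat_lit 192) (.c (nat_lit 448) (nat_lit 96) (.c (nat_lit 3584) (nat_lit 48) 
  (.c (nat_lit 28672) (nat_lit 24) .nil))))
  (nat_lit 0x200000b00900a00000303000a00c00300900100000602d00900000000900400900803000403000802d007000005)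
  (nat_lit 0x1f8fe31f97f11fbff81f80f11f82781f80231f80031f96f11f81e31fffe31f97111f8fc3) (nat_lit 0)

/-- relations -/
noncomputable def rlT_0 : Tr Rl :=
  (.b (.l R0) (.l R1))

/-- sources -/
noncomputable def rdT_0 : Tr RD :=
  (.b (.l Q0) (.l Q1))

theorem r_0 : okRT ent rdT_0 rlT_0 = true := by decide +kernel

/-- relations -/
noncomputable def rlT : Tr Rl :=
  rlT_0

/-- edges -/
noncomputable def E0 : ℕ := nat_lit 0x11001200100004

/-- codes -/
noncomputable def C0 : ℕ := nat_lit 0x88100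

theorem e0 : chkE ent (nat_lit 2) E0 C0 = true := by decide +kernel

/-- steps -/
noncomputable def I0_0 : List ℕ :=
  [nat_lit 0xf0000e000000f00016000001200014000001100008000001000002]

theorem p0 : runI E0 (fun j => gr rlT j) (fun j => gr clT j)
    (fun _ _ _ => false)
    (I0_0) (nat_lit 0) sT0 sF0 = true := by decide +kernel

theorem c0 {f : ℕ → ℤ} (h01 : ∀ m, f m = 0 ∨ f m = 1)
    (hf : ∀ i π a b, okD i π a b = true → f a ≤ f b)
    (hR : ∀ j, (gr rlT j).Hold (fun v => f (ent v)))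
    (hs : Stt (fun v => f (ent v)) (fun j => gr clT j) (nat_lit 0) sT0 sF0) :
    False := by
  exact segL h01 hf ent _ _ hR e0 p0 hs

/-- variables -/
noncomputable def L0 : ℕ := nat_lit 0xe000d000c000b000a00080007000600040003

theorem l0 : allV (fun v => bif3 (okF1 (nat_lit 215) (nat_lit 21) (ent v)) true
    (List.elem (ent v) ([] : List ℕ))) (nat_lit 10) L0 = true := by decide +kernel

/-- variables -/
noncomputable def L1 : ℕ := nat_lit 0xf0009000500020001

theorem l1 : allV (fun v => bif3 (okF0 (nat_lit 215) (nat_lit 21) (ent v)) true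
    (List.elem (ent v) ([] : List ℕ))) (nat_lit 5) L1 = true := by decide +kernel

theorem i1 : Nat.beq (mkS (nat_lit 10) L0 (nat_lit 0)) sT0 = true := by decide +kernel

theorem i2 : Nat.beq (mkS (nat_lit 5) L1 (nat_lit 0)) sF0 = true := by decide +kernel

/-- the initial state is right -/
theorem init {x : ℕ → ℤ} (h1 : ∀ v, bif3 (okF1 (nat_lit 215) (nat_lit 21) (ent v)) true
    (List.elem (ent v) ([] : List ℕ)) = true → x v = 1)
    (h0 : ∀ v, bif3 (okF0 (nat_lit 215) (nat_lit 21) (ent v)) true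
    (List.elem (ent v) ([] : List ℕ)) = true → x v = 0) :
    Stt x (fun j => gr clT j) (nat_lit 0) sT0 sF0 := by
  have e1 := Nat.eq_of_beq_eq_true i1
  have e2 := Nat.eq_of_beq_eq_true i2
  rw [← e1, ← e2]
  refine ⟨fun j hj => absurd hj (Nat.not_lt_zero j), ?_⟩
  refine mkS_okT _ h1 _ _ _ _ l0 ?_
  refine mkS_okF _ h0 _ _ _ _ l1 ?_
  exact Ok.zero x

open Pool.Agent.H119R2.Kp Pool.Agent.N593.Karp Pool.Agent.L0h93.Karp Pool.Agent.L0h93.Karp.M5 in
/-- the relations hold -/
theorem hRel {n q : ℕ} {P : SimpleGraph (Fin n) → Prop} (hP : GP n q P) {r p : ℕ}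
    (har : Ar n q r p) (j : ℕ) : (gr rlT j).Hold (fun v => fV P r p (ent v)) := by
  rw [gr_eq]
  refine Tr.get_all _ rlT ?_ j
  exact okRT_ok hP har ent _ _ r_0

open Pool.Agent.H119R2.Kp Pool.Agent.N593.Karp Pool.Agent.L0h93.Karp Pool.Agent.L0h93.Karp.M5 in
/-- **the case is impossible** -/
theorem leaf (hF1 : S_F1) {n q : ℕ} {P : SimpleGraph (Fin n) → Prop} (hP : GP n q P)
    (hS : Star n P) {r p : ℕ} (har : Ar n q r p) (hc : Cse P r p 215 21) : False := by
  have h1 : ∀ v, bif3 (okF1 (nat_lit 215) (nat_lit 21) (ent v)) true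
      (List.elem (ent v) ([] : List ℕ)) = true → fV P r p (ent v) = 1 := by
    intro v h
    rcases bif3_c h with ⟨h, _⟩ | h
    · exact (hF1 n q P hP hS r p har 215 21 hc (ent v)).1 h
    · exact Bool.noConfusion h
  have h0 : ∀ v, bif3 (okF0 (nat_lit 215) (nat_lit 21) (ent v)) true
      (List.elem (ent v) ([] : List ℕ)) = true → fV P r p (ent v) = 0 := by
    intro v h
    rcases bif3_c h with ⟨h, _⟩ | h
    · exact (hF1 n q P hP hS r p har 215 21 hc (ent v)).2 h
    · exact Bool.noConfusion h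
  have hs := init (x := fun v => fV P r p (ent v)) h1 h0
  have h01 : ∀ m, fV P r p m = 0 ∨ fV P r p m = 1 := fun m => fV01 r p m
  have hf : ∀ i π a b, okD i π a b = true → fV P r p a ≤ fV P r p b :=
    fun i π a b h => dom hP r p har.hrp i π a b h
  have hR := hRel hP har
  exact c0 h01 hf hR hs

end Pool.Agent.H70.KP.L.D1001_E000x
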