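import Pool.Agent.H70.KP.Edg
import Pool.Agent.H70.KP.Stm
import Pool.Agent.H70.KP.RelD
import Pool.Agent.L0h93.Karp.EdgC

set_option autoImplicit false

/-! MP_257582_lc: certificate (generated). -/

namespace Pool.Agent.H70.KP.L.D100x_E001x

open Pool.Agent.H70.KP
open Pool.Agent.L0h93.Karp.M5 (gr entL gr_eq okD)
open Pool.Agent.H70.KP.R2 (RD okRT okRT_ok)

/-- table -/
noncomputable def clT_0 : Tr ℕ :=
  (.l (nat_lit 0))

/-- clauses -/
noncomputable def clT : Tr ℕ :=
  clT_0

/-- patterns -/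
noncomputable def enL : ℕ := nat_lit 0x77d871f17ee0754870742670740070f7fe70f010e07ffef07d6ef07c00f07bd8f07948f07949707826f0fe9ef0f97ef0feb6f0f970f01fffe038ffd008ffd03f1fd018e3e0081ef03f1fe0181fe0081fe01971e00970f03803d01feef0196ef01800f030ffc0371fc03703c037fdc030fdc03001c0fbfe70f96e70180ee018e1c01960e0f8007073d871f16e70714870702670700071fbfe71f82670780071f170e0f7fef0f01ef0f010f0f00ef0f2b6f0f290f0f026f0f7fe1010fe10117e10f01e1010e210117010f0101017fe30101e3010023030fc3000fc30371c30000f10370030002780000030f6fcf0f06cf00000f1f8fe31f97f11fbff81f80f11f80031f8fe11f97e11f97f01fbfe81f80e11f96f01f80011f01ee0f01ee0f69ee0f69070f17ee0796f707fd8f07d6f707d4970fe90f0fbd8f0f810f0097fe01fe3d01970f018e3d01803d0fa90f01fe0f018fdd018e1d0301fc0371dc0301dc01fe0e018fdc0fbd870fa9071f00ee0f3d870f290707bd871f8fdc1f0fdc1f0ffc0f3d8f0f170f0f6b680f69010f1701017e21017e23011711017e030f690f1f97111f82781f97011f81e20756e71f7fe7077fe70f6b670f3fe70f170e0f16e70f000707d48f07c26f07bfef0796ef07800f0fffef0fab6f0f826f0f8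1ef0f80ef03fffd03f03d0381fe0381fd01fe3e0197fe0197ef018ffe018ffd01803e00ffef0097ef00803d01ffef0181ef0fbfef0f96ef0f800f01960f0180ef037ffc03701c03003c0fab670f82670f80ee01feee0196ee01800e0f2b670f02670f00ee0716e71f0007073fe71f800707bfe70782671f3fe71f02671f003c0f6b6f0f69ef0f3fef0f17ef0f16ef0f69e10f17e1017fe10101e1010021017ef10117f10116f1010fe3010e230100030301c3011611010fc3010e030100f10016f1037fc3030003003ff80f000f003dfe0006cf0001fe1f96f11f81e31fffe31f8fc31f80231fffe11f96e11f8fc11f82680301c11f81e11f80f01f8021000000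

/-- pattern of a variable -/
noncomputable def ent (v : ℕ) : ℕ := entL enL v

/-- state -/
noncomputable def sT0 : ℕ := nat_lit 0x1e09affe709242a7bda5153dd8

/-- state -/
noncomputable def sF0 : ℕ := nat_lit 0x21f650018f6dbd58425aeac226

/-- relation -/
noncomputable def R0 : Rl :=
  .mk [nat_lit 769, nat_lit 1537, nat_lit 1793, nat_lit 2049, nat_lit 26113, nat_lit 26369, 
  nat_lit 38657, nat_lit 38913] [nat_lit 257, nat_lit 513, nat_lit 1281, nat_lit 39169, nat_lit 39425, 
  nat_lit 39681, nat_lit 39937, nat_lit 40193] (nat_lit 8)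

/-- source -/
noncomputable def Q0 : RD :=
  .m (nat_lit 3) (nat_lit 32736) (nat_lit 2064385)
  (.c (nat_lit 32) (nat_lit 192) (.c (nat_lit 448) (nat_lit 96) (.c (nat_lit 3584) (nat_lit 48) 
  (.c (nat_lit 28672) (nat_lit 24) .nil))))
  (nat_lit 0x300000f00900e00000003000d00c00400900500000802d00c00000100900200900b03000703000902d00a000006)
  (nat_lit 0x1f8fe11f97e11f97f01fbfe81f80e11f82681f80f01f80211f96f01f80011f97011f81e21fffe11f96e11f8fc11f81e1) (nat_lit 0)

/-- relation -/
noncomputable def R1 : Rl :=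
  .mk [nat_lit 2561, nat_lit 2817, nat_lit 3074, nat_lit 3330, nat_lit 26881, nat_lit 40449] [nat_lit 2305, 
  nat_lit 26625, nat_lit 40706, nat_lit 40961, nat_lit 41218, nat_lit 41473] (nat_lit 8)

/-- source -/
noncomputable def Q1 : RD :=
  .m (nat_lit 3) (nat_lit 32736) (nat_lit 2064387)
  (.c (nat_lit 32) (nat_lit 192) (.c (nat_lit 448) (nat_lit 96) (.c (nat_lit 3584) (nat_lit 48) 
  (.c (nat_lit 28672) (nat_lit 24) .nil))))
  (nat_lit 0x100000b00900a00000203000a00c00200900400000602d00900000000900300900803000303000802d007000005)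
  (nat_lit 0x1f8fe31f97f11fbff81f80f11f82781f80231f80031f97111f96f11f81e31fffe31f8fc3) (nat_lit 0)

/-- relation -/
noncomputable def R2 : Rl :=
  .mk [nat_lit 4097, nat_lit 27137, nat_lit 41729, nat_lit 41985] [nat_lit 3585, nat_lit 3841, 
  nat_lit 4353, nat_lit 42241] (nat_lit 4)

/-- source -/
noncomputable def Q2 : RD :=
  .m (nat_lit 5) (nat_lit 1989600) (nat_lit 30)
  (.c (nat_lit 480) (nat_lit 96) (.c (nat_lit 23040) (nat_lit 48) (.c (nat_lit 1966080) (nat_lit 24) 
  .nil)))
  (nat_lit 0x31007001000030001000004031003031005030006030002)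
  (nat_lit 0xf6fcf0f000f0006cf0001fe0f06cf00000f0f690f003dfe) (nat_lit 0)

/-- relation -/
noncomputable def R3 : Rl :=
  .mk [nat_lit 4865, nat_lit 5378, nat_lit 5634, nat_lit 5890, nat_lit 6402, nat_lit 8194, 
  nat_lit 42497, nat_lit 43522, nat_lit 43777, nat_lit 44033] [nat_lit 4609, nat_lit 5121, 
  nat_lit 6146, nat_lit 6658, nat_lit 6914, nat_lit 7682, nat_lit 27394, nat_lit 42753, nat_lit 43009, 
  nat_lit 43266] (nat_lit 16)

/-- source -/
noncomputable def Q3 : RD :=
  .m (nat_lit 3) (nat_lit 229312) (nat_lit 3)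
  (.c (nat_lit 448) (nat_lit 384) (.c (nat_lit 3584) (nat_lit 192) (.c (nat_lit 28672) (nat_lit 96) 
  (.c (nat_lit 65536) (nat_lit 48) (.c (nat_lit 131072) (nat_lit 24) .nil)))))
  (nat_lit 0xb00900503000502d00a00000900000c00c00c00000800000700900f00c01000900100000d00900200c00300901300c00700001003000f03000100c00d00000303000203001300001200900403000402d01100000000000e00c00e000006)
  (nat_lit 0xf1037003000278017e030116f10100030301c3010fc3037fc3003ff8030fc3000fc30371c3000003017ef1011611010e030100f10016f1030003) (nat_lit 0)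

/-- relation -/
noncomputable def R4 : Rl :=
  .mk [nat_lit 6145, nat_lit 6913, nat_lit 7169, nat_lit 7681, nat_lit 27393, nat_lit 27649, 
  nat_lit 44545, nat_lit 44801] [nat_lit 5633, nat_lit 5889, nat_lit 6401, nat_lit 7425, 
  nat_lit 7937, nat_lit 8193, nat_lit 27905, nat_lit 44289] (nat_lit 8)

/-- source -/
noncomputable def Q4 : RD :=
  .m (nat_lit 3) (nat_lit 32736) (nat_lit 65539)
  (.c (nat_lit 32) (nat_lit 192) (.c (nat_lit 448) (nat_lit 96) (.c (nat_lit 3584) (nat_lit 48) 
  (.c (nat_lit 28672) (nat_lit 24) .nil))))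
  (nat_lit 0x700000b00900c00000600000e00000200900500000f00900d00000000900300900800000400000900900a000001)
  (nat_lit 0x10023017e23017ef10117f1010fe3011611010e030100f1017fe30101e3011711017e030116f1010e23010003010fc3) (nat_lit 0)

/-- relation -/
noncomputable def R5 : Rl :=
  .mk [nat_lit 8449, nat_lit 28161, nat_lit 28417, nat_lit 28673, nat_lit 45825, nat_lit 46081, 
  nat_lit 46337, nat_lit 46593] [nat_lit 8705, nat_lit 8961, nat_lit 9217, nat_lit 9473, 
  nat_lit 28929, nat_lit 45057, nat_lit 45313, nat_lit 45569] (nat_lit 8)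

/-- source -/
noncomputable def Q5 : RD :=
  .m (nat_lit 3) (nat_lit 1867712) (nat_lit 65569)
  (.c (nat_lit 448) (nat_lit 192) (.c (nat_lit 3584) (nat_lit 96) (.c (nat_lit 28672) (nat_lit 48) 
  (.c (nat_lit 1835008) (nat_lit 24) .nil))))
  (nat_lit 0x900700000900900b00000600900a00900500900400000802d00c00000100900300000f00900200900e00900d000000)
  (nat_lit 0x10e210117010f01010f6b680f69e10f17e1017fe10101e10f7fe1010fe10117e10f01e10f69010f1701017e21010021) (nat_lit 0)

/-- relation -/
noncomputable def R6 : Rl :=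
  .mk [nat_lit 4353, nat_lit 9729, nat_lit 27137, nat_lit 29185, nat_lit 29441, nat_lit 47361, 
  nat_lit 48129, nat_lit 48385] [nat_lit 9985, nat_lit 10241, nat_lit 10497, nat_lit 10753, 
  nat_lit 46849, nat_lit 47105, nat_lit 47617, nat_lit 47873] (nat_lit 8)

/-- source -/
noncomputable def Q6 : RD :=
  .m (nat_lit 3) (nat_lit 32736) (nat_lit 1900573)
  (.c (nat_lit 32) (nat_lit 192) (.c (nat_lit 448) (nat_lit 96) (.c (nat_lit 3584) (nat_lit 48) 
  (.c (nat_lit 28672) (nat_lit 24) .nil))))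
  (nat_lit 0x900700900a00900800900602d00b00900200900300900f02d00902d00400900100900e02d00502d00d02d00c009000)
  (nat_lit 0xf010f0f00ef0f290f0f026f0f6b6f0f69ef0f3fef0f17ef0f7fef0f01ef0f2b6f0f3d8f0f170f0f690f0f16ef0f000f) (nat_lit 0)

/-- relation -/
noncomputable def R7 : Rl :=
  .mk [nat_lit 11521, nat_lit 12801, nat_lit 29697, nat_lit 48641] [nat_lit 11009, nat_lit 11265, 
  nat_lit 25601, nat_lit 29953] (nat_lit 4)

/-- source -/
noncomputable def Q7 : RD :=
  .m (nat_lit 4) (nat_lit 32736) (nat_lit 2031644)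
  (.c (nat_lit 32) (nat_lit 96) (.c (nat_lit 4032) (nat_lit 48) (.c (nat_lit 28672) (nat_lit 24) 
  .nil)))
  (nat_lit 0x2d00600000200900300000402d00000000702d00502d001)
  (nat_lit 0x1f0fdc1f7fe71f02671f003c1f170e1f0ffc1f00071f3fe7) (nat_lit 0)

/-- relation -/
noncomputable def R8 : Rl :=
  .mk [nat_lit 12033, nat_lit 30209, nat_lit 48897, nat_lit 49153] [nat_lit 11777, nat_lit 12289, 
  nat_lit 30465, nat_lit 49409] (nat_lit 4)

/-- source -/
noncomputable def Q8 : RD :=
  .m (nat_lit 4) (nat_lit 229312) (nat_lit 1867804)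
  (.c (nat_lit 4032) (nat_lit 96) (.c (nat_lit 28672) (nat_lit 48) (.c (nat_lit 196608) (nat_lit 24) 
  .nil)))
  (nat_lit 0x2d00702d00000000102d00602d00302d00402d00502d002)
  (nat_lit 0x1fbfe707bd871f80070782671f82670780071f8fdc07bfe7) (nat_lit 0)

/-- relation -/
noncomputable def R9 : Rl :=
  .mk [nat_lit 12801, nat_lit 13058, nat_lit 13314, nat_lit 13570, nat_lit 24834, nat_lit 29953, 
  nat_lit 30722, nat_lit 49665, nat_lit 50434, nat_lit 50689] [nat_lit 11265, nat_lit 11521, 
  nat_lit 12545, nat_lit 13826, nat_lit 24066, nat_lit 24322, nat_lit 30978, nat_lit 31234, 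
  nat_lit 49921, nat_lit 50178] (nat_lit 16)

/-- source -/
noncomputable def Q9 : RD :=
  .m (nat_lit 3) (nat_lit 229312) (nat_lit 1835036)
  (.c (nat_lit 448) (nat_lit 384) (.c (nat_lit 3584) (nat_lit 192) (.c (nat_lit 28672) (nat_lit 96) 
  (.c (nat_lit 65536) (nat_lit 48) (.c (nat_lit 131072) (nat_lit 24) .nil)))))
  (nat_lit 0x2d00b02d00403900402d00c00000502d01003901002d00902d00802d00f03900d02d00100901100900203900602d01303900802d00d03900f03900103001102d00603000203901302d00a02d00303900302d01202d00002d00e03900e02d007)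
  (nat_lit 0x714870702671f00ee0f3d870f16e70f00070f2b67073fe71f3fe71f0267073d871f16e70700070f29071f0fdc0f3fe70f02670f00ee0716e71f0007) (nat_lit 0)

/-- relation -/
noncomputable def R10 : Rl :=
  .mk [nat_lit 14081, nat_lit 14337, nat_lit 14849, nat_lit 15105, nat_lit 31489, nat_lit 32001, 
  nat_lit 32257, nat_lit 52225] [nat_lit 14593, nat_lit 15361, nat_lit 31745, nat_lit 50945, 
  nat_lit 51201, nat_lit 51457, nat_lit 51713, nat_lit 51969] (nat_lit 8)

/-- source -/
noncomputable def Q10 : RD :=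
  .m (nat_lit 3) (nat_lit 1867712) (nat_lit 98332)
  (.c (nat_lit 448) (nat_lit 192) (.c (nat_lit 3584) (nat_lit 96) (.c (nat_lit 28672) (nat_lit 48) 
  (.c (nat_lit 1835008) (nat_lit 24) .nil))))
  (nat_lit 0x2d00700900802d00a00000502d00f00900100900200900e02d00900900602d00400000d02d00300900c02d00b009000)
  (nat_lit 0xf96e70180ee018e1c01960e0f80070fbd870fab6701feee0fbfe701fe0e018fdc0fa9070f82670f80ee0196ee01800e) (nat_lit 0)

/-- relation -/
noncomputable def R11 : Rl :=
  .mk [nat_lit 16129, nat_lit 32770, nat_lit 33026, nat_lit 52481, nat_lit 52737, nat_lit 53249] [nat_lit 15617, 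
  nat_lit 15873, nat_lit 32514, nat_lit 52993, nat_lit 53506, nat_lit 53761] (nat_lit 8)

/-- source -/
noncomputable def Q11 : RD :=
  .m (nat_lit 3) (nat_lit 32736) (nat_lit 196636)
  (.c (nat_lit 32) (nat_lit 192) (.c (nat_lit 448) (nat_lit 96) (.c (nat_lit 3584) (nat_lit 48) 
  (.c (nat_lit 28672) (nat_lit 24) .nil))))
  (nat_lit 0xb00000a00000200c00a00c00200000500000600000900000400000100000800c00100c008000007000003)
  (nat_lit 0x30ffc0371fc037fdc0301dc03701c03003c03703c030fdc03001c0301fc0371dc037ffc) (nat_lit 0)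

/-- relation -/
noncomputable def R12 : Rl :=
  .mk [nat_lit 17409, nat_lit 21505, nat_lit 22017, nat_lit 33537, nat_lit 33793, nat_lit 34049, 
  nat_lit 54017, nat_lit 54273] [nat_lit 16385, nat_lit 16641, nat_lit 16897, nat_lit 17153, 
  nat_lit 22273, nat_lit 33281, nat_lit 35841, nat_lit 54529] (nat_lit 8)

/-- source -/
noncomputable def Q12 : RD :=
  .m (nat_lit 3) (nat_lit 1867712) (nat_lit 98333)
  (.c (nat_lit 448) (nat_lit 192) (.c (nat_lit 3584) (nat_lit 96) (.c (nat_lit 28672) (nat_lit 48) 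
  (.c (nat_lit 1835008) (nat_lit 24) .nil))))
  (nat_lit 0x2d00000900f02d00e00000300900b00900700900100900802d00c00900402d00500000d02d00200900900900a009006)
  (nat_lit 0x1feef0fbd8f018e1d0fab6f0f96ef0f800f01960f0180ef0196ef01800f0fa90f01fe0f018fdd0f826f0f80ef0fbfef) (nat_lit 0)

/-- relation -/
noncomputable def R13 : Rl :=
  .mk [nat_lit 17665, nat_lit 17921, nat_lit 33537, nat_lit 33793, nat_lit 34561, nat_lit 34817, 
  nat_lit 54017, nat_lit 54273] [nat_lit 16385, nat_lit 16641, nat_lit 19201, nat_lit 19713, 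
  nat_lit 33281, nat_lit 34305, nat_lit 35073, nat_lit 54529] (nat_lit 8)

/-- source -/
noncomputable def Q13 : RD :=
  .m (nat_lit 3) (nat_lit 32736) (nat_lit 98333)
  (.c (nat_lit 32) (nat_lit 192) (.c (nat_lit 448) (nat_lit 96) (.c (nat_lit 3584) (nat_lit 48) 
  (.c (nat_lit 28672) (nat_lit 24) .nil))))
  (nat_lit 0x900100000a00900b00900000000e00000400900500000d00900f00000200900700900800900300000c009009009006)
  (nat_lit 0x1feef01fe3d01803d018e1d0197ef018ffd01960f0180ef0196ef01800f01970f018e3d01fe0f018fdd01ffef0181ef) (nat_lit 0)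

/-- relation -/
noncomputable def R14 : Rl :=
  .mk [nat_lit 17665, nat_lit 17921, nat_lit 18177, nat_lit 18433, nat_lit 34561, nat_lit 34817, 
  nat_lit 35329, nat_lit 54785, nat_lit 55297, nat_lit 55809, nat_lit 56065, nat_lit 56577, 
  nat_lit 56833, nat_lit 57089, nat_lit 57345, nat_lit 57601] [nat_lit 18689, nat_lit 18945, 
  nat_lit 19201, nat_lit 19457, nat_lit 19713, nat_lit 19969, nat_lit 20225, nat_lit 20481, 
  nat_lit 20737, nat_lit 20993, nat_lit 21249, nat_lit 34305, nat_lit 35073, nat_lit 55041, 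
  nat_lit 55553, nat_lit 56321] (nat_lit 16)

/-- source -/
noncomputable def Q14 : RD :=
  .m (nat_lit 3) (nat_lit 229312) (nat_lit 32829)
  (.c (nat_lit 448) (nat_lit 384) (.c (nat_lit 3584) (nat_lit 192) (.c (nat_lit 28672) (nat_lit 96) 
  (.c (nat_lit 65536) (nat_lit 48) (.c (nat_lit 131072) (nat_lit 24) .nil)))))
  (nat_lit 0x1a00900100c00f00901000000e00001200c01300000d00000c00901400c01600900300001700900000c00b00901f00c00a00001c03001503000600c01800000400c00900c01e00001900900503000800901d00000700001b00c011000002)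
  (nat_lit 0x81ef0081fe00970f01fe3d01803d03fffd03f03d0381fe0381fd01fe3e0197fe0197ef018ffe018ffd01803e00ffef01fffe038ffd008ffd03f1fd018e3e03f1fe0181fe01971e03803d0097fe01970f018e3d0097ef00803d01ffef0181ef) (nat_lit 0)

/-- relation -/
noncomputable def R15 : Rl :=
  .mk [nat_lit 16897, nat_lit 17153, nat_lit 21761, nat_lit 22273, nat_lit 22529, nat_lit 35841, 
  nat_lit 36097, nat_lit 57857] [nat_lit 17409, nat_lit 21505, nat_lit 22017, nat_lit 34049, 
  nat_lit 35585, nat_lit 58113, nat_lit 58369, nat_lit 58625] (nat_lit 8)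

/-- source -/
noncomputable def Q15 : RD :=
  .m (nat_lit 3) (nat_lit 32736) (nat_lit 1933341)
  (.c (nat_lit 32) (nat_lit 192) (.c (nat_lit 448) (nat_lit 96) (.c (nat_lit 3584) (nat_lit 48) 
  (.c (nat_lit 28672) (nat_lit 24) .nil))))
  (nat_lit 0x900400900f00900e00900202d00d00900600900700900c02d00802d00500900100900902d00302d00b02d00a009000)
  (nat_lit 0xfe9ef0f97ef0feb6f0f810f0fa90f0f826f0f80ef0fbfef0f970f0fe90f0fbd8f0fffef0fab6f0f81ef0f96ef0f800f) (nat_lit 0)

/-- relation -/
noncomputable def R16 : Rl :=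
  .mk [nat_lit 22785, nat_lit 23041, nat_lit 23553, nat_lit 23809, nat_lit 36353, nat_lit 37121, 
  nat_lit 59649, nat_lit 60417] [nat_lit 23297, nat_lit 36609, nat_lit 36865, nat_lit 58881, 
  nat_lit 59137, nat_lit 59393, nat_lit 59905, nat_lit 60161] (nat_lit 8)

/-- source -/
noncomputable def Q16 : RD :=
  .m (nat_lit 3) (nat_lit 32736) (nat_lit 1867805)
  (.c (nat_lit 32) (nat_lit 192) (.c (nat_lit 448) (nat_lit 96) (.c (nat_lit 3584) (nat_lit 48) 
  (.c (nat_lit 28672) (nat_lit 24) .nil))))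
  (nat_lit 0x2d00702d00a02d00f02d00303900903900402d00202d00e02d00802d00602d00102d00d03900503900c02d00b02d000)
  (nat_lit 0x7d6ef07c00f07948f07949707826f07fd8f07d6f707bfef07ffef07bd8f0796f707d49707d48f07c26f0796ef07800f) (nat_lit 0)

/-- relation -/
noncomputable def R17 : Rl :=
  .mk [nat_lit 13825, nat_lit 24065, nat_lit 24321, nat_lit 24577, nat_lit 30977, nat_lit 37633, 
  nat_lit 38145, nat_lit 60929] [nat_lit 13313, nat_lit 13569, nat_lit 24833, nat_lit 25089, 
  nat_lit 30721, nat_lit 37377, nat_lit 37889, nat_lit 60673] (nat_lit 8)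

/-- source -/
noncomputable def Q17 : RD :=
  .m (nat_lit 3) (nat_lit 32736) (nat_lit 1900572)
  (.c (nat_lit 32) (nat_lit 192) (.c (nat_lit 448) (nat_lit 96) (.c (nat_lit 3584) (nat_lit 48) 
  (.c (nat_lit 28672) (nat_lit 24) .nil))))
  (nat_lit 0x2d00700900e00900d00900602d00b02d00500900300900f02d00a02d00402d00200900802d00002d00c02d00902d001)
  (nat_lit 0xf010e0f69ee0f17ee0f29070f6b670f3fe70f02670f00ee0f7fe70f01ee0f69070f3d870f170e0f16e70f00070f2b67) (nat_lit 0)

/-- relation -/
noncomputable def R18 : Rl :=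
  .mk [nat_lit 11009, nat_lit 24578, nat_lit 25858, nat_lit 29697, nat_lit 37634, nat_lit 38146, 
  nat_lit 60930, nat_lit 61185, nat_lit 61954, nat_lit 62209] [nat_lit 25090, nat_lit 25345, 
  nat_lit 25601, nat_lit 37378, nat_lit 37890, nat_lit 38402, nat_lit 48641, nat_lit 60674, 
  nat_lit 61441, nat_lit 61698] (nat_lit 16)

/-- source -/
noncomputable def Q18 : RD :=
  .m (nat_lit 3) (nat_lit 229312) (nat_lit 1835068)
  (.c (nat_lit 448) (nat_lit 384) (.c (nat_lit 3584) (nat_lit 192) (.c (nat_lit 28672) (nat_lit 96) 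
  (.c (nat_lit 65536) (nat_lit 48) (.c (nat_lit 131072) (nat_lit 24) .nil)))))
  (nat_lit 0x2d00c02d00603900602d00b00000300900e03000e02d00900900800900d03900a02d00200900f00900503900402d01303000802d00a03000d03900203000f02d00403000503901300901000900103000102d01200000000901103001102d007)
  (nat_lit 0x754870742670f010e1f170e1f01ee0f69ee0f17ee1f7fe7077fe70f6b67077d871f17ee0740070f7fe70f01ee0f69071f0ffc0756e70f170e1f003c) (nat_lit 0)

/-- relations -/
noncomputable def rlT_0 : Tr Rl :=
  (.b (.b (.b (.b (.b (.l R0) (.l R16)) (.l R8)) (.b (.l R4) (.l R12))) (.b (.b (.b (.l R2) 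
  (.l R18)) (.l R10)) (.b (.l R6) (.l R14)))) (.b (.b (.b (.b (.l R1) (.l R17)) (.l R9)) 
  (.b (.l R5) (.l R13))) (.b (.b (.l R3) (.l R11)) (.b (.l R7) (.l R15)))))

/-- sources -/
noncomputable def rdT_0 : Tr RD :=
  (.b (.b (.b (.b (.b (.l Q0) (.l Q16)) (.l Q8)) (.b (.l Q4) (.l Q12))) (.b (.b (.b (.l Q2) 
  (.l Q18)) (.l Q10)) (.b (.l Q6) (.l Q14)))) (.b (.b (.b (.b (.l Q1) (.l Q17)) (.l Q9)) 
  (.b (.l Q5) (.l Q13))) (.b (.b (.l Q3) (.l Q11)) (.b (.l Q7) (.l Q15)))))

theorem r_0 : okRT ent rdT_0 rlT_0 = true := by decide +kernel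

/-- relations -/
noncomputable def rlT : Tr Rl :=
  rlT_0

/-- edges -/
noncomputable def E0 : ℕ := nat_lit 0x96009500940073006a00930092009100900077008f008a008d008e008c00730085008b0089007e008500860084007e0083007d008100820080007e007a007f007c0077007a007b00790077006a0078007600750074007300710072006a00700067006f006d006e0069006c0067006800660004

/-- codes -/
noncomputable def C0 : ℕ := nat_lit 0xa80008800012001000000241200000462a104800a860000000b02c8000000000088100

theorem e0 : chkE ent (nat_lit 29) E0 C0 = true := by decide +kernel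

/-- steps -/
noncomputable def I0_0 : List ℕ :=
  [nat_lit 0x920000e0010092001280000096001c20010095001160000094001b20000093001a4000009200192001009100106000009000182000008f00172000008e00164000008d000f8000008c00152000008b00144001008a000e60000089001320000088000d80000087000d80000086001240000085000c80000084001120000083001020000082000f40000081000b80000080000e2000007f000d4001007e000a6001007d000a6000007c000c2000007b000b4001007a000980000079000a2000007800094000007700086000007600082000007500076000007400072001007300066000007200064001007100058000007000054000006f00044000006e00034001006d00048000006c00024001006b00038000006a00028000006900018000006800014000006700008000006600002]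

theorem p0 : runI E0 (fun j => gr rlT j) (fun j => gr clT j)
    (fun _ _ _ => false)
    (I0_0) (nat_lit 0) sT0 sF0 = true := by decide +kernel

theorem c0 {f : ℕ → ℤ} (h01 : ∀ m, f m = 0 ∨ f m = 1)
    (hf : ∀ i π a b, okD i π a b = true → f a ≤ f b)
    (hR : ∀ j, (gr rlT j).Hold (fun v => f (ent v)))
    (hs : Stt (fun v => f (ent v)) (fun j => gr clT j) (nat_lit 0) sT0 sF0) :
    False := by
  exact segL h01 hf ent _ _ hR e0 p0 hs

/-- variables -/
noncomputable def L0 : ℕ := nat_lit 0x64006300620061005b0058005700550053005200510050004f004e004d004c004b004a0049004600450044003f003c003900360031002f002d002a00290028002700250024002300220020001f001d001a0018001400120010000d000c000b000a00080007000600040003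

theorem l0 : allV (fun v => bif3 (okF1 (nat_lit 23) (nat_lit 53) (ent v)) true
    (List.elem (ent v) ([] : List ℕ))) (nat_lit 54) L0 = true := by decide +kernel

/-- variables -/
noncomputable def L1 : ℕ := nat_lit 0x650060005f005e005d005c005a005900560054004800470043004200410040003e003d003b003a0038003700350034003300320030002e002c002b00260021001e001c001b001900170016001500130011000f000e0009000500020001

theorem l1 : allV (fun v => bif3 (okF0 (nat_lit 23) (nat_lit 53) (ent v)) true
    (List.elem (ent v) ([] : List ℕ))) (nat_lit 47) L1 = true := by decide +kernel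

theorem i1 : Nat.beq (mkS (nat_lit 54) L0 (nat_lit 0)) sT0 = true := by decide +kernel

theorem i2 : Nat.beq (mkS (nat_lit 47) L1 (nat_lit 0)) sF0 = true := by decide +kernel

/-- the initial state is right -/
theorem init {x : ℕ → ℤ} (h1 : ∀ v, bif3 (okF1 (nat_lit 23) (nat_lit 53) (ent v)) true
    (List.elem (ent v) ([] : List ℕ)) = true → x v = 1)
    (h0 : ∀ v, bif3 (okF0 (nat_lit 23) (nat_lit 53) (ent v)) true
    (List.elem (ent v) ([] : List ℕ)) = true → x v = 0) :
    Stt x (fun j => gr clT j) (nat_lit 0) sT0 sF0 := by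
  have e1 := Nat.eq_of_beq_eq_true i1
  have e2 := Nat.eq_of_beq_eq_true i2
  rw [← e1, ← e2]
  refine ⟨fun j hj => absurd hj (Nat.not_lt_zero j), ?_⟩
  refine mkS_okT _ h1 _ _ _ _ l0 ?_
  refine mkS_okF _ h0 _ _ _ _ l1 ?_
  exact Ok.zero x

open Pool.Agent.H119R2.Kp Pool.Agent.N593.Karp Pool.Agent.L0h93.Karp Pool.Agent.L0h93.Karp.M5 in
/-- the relations hold -/
theorem hRel {n q : ℕ} {P : SimpleGraph (Fin n) → Prop} (hP : GP n q P) {r p : ℕ}
    (har : Ar n q r p) (j : ℕ) : (gr rlT j).Hold (fun v => fV P r p (ent v)) := by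
  rw [gr_eq]
  refine Tr.get_all _ rlT ?_ j
  exact okRT_ok hP har ent _ _ r_0

open Pool.Agent.H119R2.Kp Pool.Agent.N593.Karp Pool.Agent.L0h93.Karp Pool.Agent.L0h93.Karp.M5 in
/-- **the case is impossible** -/
theorem leaf (hF1 : S_F1) {n q : ℕ} {P : SimpleGraph (Fin n) → Prop} (hP : GP n q P)
    (hS : Star n P) {r p : ℕ} (har : Ar n q r p) (hc : Cse P r p 23 53) : False := by
  have h1 : ∀ v, bif3 (okF1 (nat_lit 23) (nat_lit 53) (ent v)) true
      (List.elem (ent v) ([] : List ℕ)) = true → fV P r p (ent v) = 1 := by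
    intro v h
    rcases bif3_c h with ⟨h, _⟩ | h
    · exact (hF1 n q P hP hS r p har 23 53 hc (ent v)).1 h
    · exact Bool.noConfusion h
  have h0 : ∀ v, bif3 (okF0 (nat_lit 23) (nat_lit 53) (ent v)) true
      (List.elem (ent v) ([] : List ℕ)) = true → fV P r p (ent v) = 0 := by
    intro v h
    rcases bif3_c h with ⟨h, _⟩ | h
    · exact (hF1 n q P hP hS r p har 23 53 hc (ent v)).2 h
    · exact Bool.noConfusion h
  have hs := init (x := fun v => fV P r p (ent v)) h1 h0
  have h01 : ∀ m, fV P r p m = 0 ∨ fV P r p m = 1 := fun m => fV01 r p m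
  have hf : ∀ i π a b, okD i π a b = true → fV P r p a ≤ fV P r p b :=
    fun i π a b h => dom hP r p har.hrp i π a b h
  have hR := hRel hP har
  exact c0 h01 hf hR hs

end Pool.Agent.H70.KP.L.D100x_E001x
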