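import Pool.Agent.H70.KP.Edg
import Pool.Agent.H70.KP.Stm
import Pool.Agent.H70.KP.RelD
import Pool.Agent.L0h93.Karp.EdgC

set_option autoImplicit false

/-! MP_257582_lc: certificate (generated). -/

namespace Pool.Agent.H70.KP.L.D110x_E01xx

open Pool.Agent.H70.KP
open Pool.Agent.L0h93.Karp.M5 (gr entL gr_eq okD)
open Pool.Agent.H70.KP.R2 (RD okRT okRT_ok)

/-- table -/
noncomputable def clT_0 : Tr ℕ :=
  (.l (nat_lit 0))

/-- clauses -/
noncomputable def clT : Tr ℕ :=
  clT_0

/-- patterns -/
noncomputable def enL : ℕ := nat_lit 0x1fe010180011fffe101bca101bf8101be61019b8101fe6101be0101bc6101bc011f86d0019be1019a610198c101820101806101ffe10198010181e1019a0101986101bfe10183e10183810182610199e11f81e11f800101bde11fbde11f99e11f96f01f8290000000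

/-- pattern of a variable -/
noncomputable def ent (v : ℕ) : ℕ := entL enL v

/-- state -/
noncomputable def sT0 : ℕ := nat_lit 0x4299bc

/-- state -/
noncomputable def sF0 : ℕ := nat_lit 0x3d6642

/-- relation -/
noncomputable def R0 : Rl :=
  .mk [nat_lit 513, nat_lit 769, nat_lit 1025, nat_lit 1537] [nat_lit 257, nat_lit 1793, nat_lit 5889, 
  nat_lit 8193] (nat_lit 4)

/-- source -/
noncomputable def Q0 : RD :=
  .m (nat_lit 5) (nat_lit 32736) (nat_lit 2064385)
  (.c (nat_lit 480) (nat_lit 96) (.c (nat_lit 23040) (nat_lit 48) (.c (nat_lit 9216) (nat_lit 24) 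
  .nil)))
  (nat_lit 0x7001002000801000005030000031006030804000003)
  (nat_lit 0x1fffe11f86d01f81e11f82901f80011fbde11f99e11f96f0) (nat_lit 0)

/-- relation -/
noncomputable def R1 : Rl :=
  .mk [nat_lit 1281, nat_lit 1793, nat_lit 5889, nat_lit 8449] [nat_lit 1025, nat_lit 1537, 
  nat_lit 3841, nat_lit 6145] (nat_lit 4)

/-- source -/
noncomputable def Q1 : RD :=
  .m (nat_lit 5) (nat_lit 1989600) (nat_lit 98305)
  (.c (nat_lit 480) (nat_lit 96) (.c (nat_lit 23040) (nat_lit 48) (.c (nat_lit 1966080) (nat_lit 24) 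
  .nil)))
  (nat_lit 0x1004001000000001000006031002001007000005000003)
  (nat_lit 0x1bc010181e11f80011fbde10180011f86d01f81e101bde1) (nat_lit 0)

/-- relation -/
noncomputable def R2 : Rl :=
  .mk [nat_lit 2306, nat_lit 2562, nat_lit 3332, nat_lit 3588, nat_lit 3841, nat_lit 4353, 
  nat_lit 5636, nat_lit 7426, nat_lit 7682, nat_lit 7940, nat_lit 8449, nat_lit 8705] [nat_lit 1281, 
  nat_lit 2049, nat_lit 2818, nat_lit 3074, nat_lit 4097, nat_lit 4610, nat_lit 4866, nat_lit 5122, 
  nat_lit 5380, nat_lit 6145, nat_lit 6402, nat_lit 6658, nat_lit 6914, nat_lit 7172] (nat_lit 28)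

/-- source -/
noncomputable def Q2 : RD :=
  .m (nat_lit 2) (nat_lit 32736) (nat_lit 98305)
  (.c (nat_lit 96) (nat_lit 768) (.c (nat_lit 384) (nat_lit 384) (.c (nat_lit 512) (nat_lit 192) 
  (.c (nat_lit 9216) (nat_lit 96) (.c (nat_lit 6144) (nat_lit 48) (.c (nat_lit 16384) (nat_lit 24) 
  .nil))))))
  (nat_lit 0x500000f00180c00080600100c00000600200d00000e00800f00000c00b00600080d00800600000d00800e00000400001800000700180900081400100900001400401300000000800800001600b01900080200801900000200800100001100801800000800a00900081900500900001900201300000100800700801600b01400b00200801400800200800000801100000b00001700181500080300101500000300201000001200801700001500b00300081000800300001000801200000a)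
  (nat_lit 0x19b8101fe6101be0101bc6101bc01019a610198c101820101806101980101bfe10183e10199e101bde101fe0101800101bca101bf8101be61019be101ffe10181e1019a01019861018381018261) (nat_lit 0)

/-- relations -/
noncomputable def rlT_0 : Tr Rl :=
  (.b (.b (.l R0) (.l R2)) (.l R1))

/-- sources -/
noncomputable def rdT_0 : Tr RD :=
  (.b (.b (.l Q0) (.l Q2)) (.l Q1))

theorem r_0 : okRT ent rdT_0 rlT_0 = true := by decide +kernel

/-- relations -/
noncomputable def rlT : Tr Rl :=
  rlT_0

/-- edges -/
noncomputable def E0 : ℕ := nat_lit 0x1f0018001e0018001d0018001b0018001a001800190018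

/-- codes -/
noncomputable def C0 : ℕ := nat_lit 0x0

theorem e0 : chkE ent (nat_lit 6) E0 C0 = true := by decide +kernel

/-- steps -/
noncomputable def I0_0 : List ℕ :=
  [nat_lit 0x180000e000001800028000001f00052000001e00042000001d00032001001c00028000001b00022000001a00012000001900002000001800016000001700006]

theorem p0 : runI E0 (fun j => gr rlT j) (fun j => gr clT j)
    (fun _ _ _ => false)
    (I0_0) (nat_lit 0) sT0 sF0 = true := by decide +kernel

theorem c0 {f : ℕ → ℤ} (h01 : ∀ m, f m = 0 ∨ f m = 1)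
    (hf : ∀ i π a b, okD i π a b = true → f a ≤ f b)
    (hR : ∀ j, (gr rlT j).Hold (fun v => f (ent v)))
    (hs : Stt (fun v => f (ent v)) (fun j => gr clT j) (nat_lit 0) sT0 sF0) :
    False := by
  exact segL h01 hf ent _ _ hR e0 p0 hs

/-- variables -/
noncomputable def L0 : ℕ := nat_lit 0x160011000f000c000b000800070005000400030002

theorem l0 : allV (fun v => bif3 (okF1 (nat_lit 31) (nat_lit 13) (ent v)) true
    (List.elem (ent v) ([] : List ℕ))) (nat_lit 11) L0 = true := by decide +kernel

/-- variables -/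
noncomputable def L1 : ℕ := nat_lit 0x150014001300120010000e000d000a000900060001

theorem l1 : allV (fun v => bif3 (okF0 (nat_lit 31) (nat_lit 13) (ent v)) true
    (List.elem (ent v) ([] : List ℕ))) (nat_lit 11) L1 = true := by decide +kernel

theorem i1 : Nat.beq (mkS (nat_lit 11) L0 (nat_lit 0)) sT0 = true := by decide +kernel

theorem i2 : Nat.beq (mkS (nat_lit 11) L1 (nat_lit 0)) sF0 = true := by decide +kernel

/-- the initial state is right -/
theorem init {x : ℕ → ℤ} (h1 : ∀ v, bif3 (okF1 (nat_lit 31) (nat_lit 13) (ent v)) true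
    (List.elem (ent v) ([] : List ℕ)) = true → x v = 1)
    (h0 : ∀ v, bif3 (okF0 (nat_lit 31) (nat_lit 13) (ent v)) true
    (List.elem (ent v) ([] : List ℕ)) = true → x v = 0) :
    Stt x (fun j => gr clT j) (nat_lit 0) sT0 sF0 := by
  have e1 := Nat.eq_of_beq_eq_true i1
  have e2 := Nat.eq_of_beq_eq_true i2
  rw [← e1, ← e2]
  refine ⟨fun j hj => absurd hj (Nat.not_lt_zero j), ?_⟩
  refine mkS_okT _ h1 _ _ _ _ l0 ?_
  refine mkS_okF _ h0 _ _ _ _ l1 ?_
  exact Ok.zero x

open Pool.Agent.H119R2.Kp Pool.Agent.N593.Karp Pool.Agent.L0h93.Karp Pool.Agent.L0h93.Karp.M5 in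
/-- the relations hold -/
theorem hRel {n q : ℕ} {P : SimpleGraph (Fin n) → Prop} (hP : GP n q P) {r p : ℕ}
    (har : Ar n q r p) (j : ℕ) : (gr rlT j).Hold (fun v => fV P r p (ent v)) := by
  rw [gr_eq]
  refine Tr.get_all _ rlT ?_ j
  exact okRT_ok hP har ent _ _ r_0

open Pool.Agent.H119R2.Kp Pool.Agent.N593.Karp Pool.Agent.L0h93.Karp Pool.Agent.L0h93.Karp.M5 in
/-- **the case is impossible** -/
theorem leaf (hF1 : S_F1) {n q : ℕ} {P : SimpleGraph (Fin n) → Prop} (hP : GP n q P)
    (hS : Star n P) {r p : ℕ} (har : Ar n q r p) (hc : Cse P r p 31 13) : False := by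
  have h1 : ∀ v, bif3 (okF1 (nat_lit 31) (nat_lit 13) (ent v)) true
      (List.elem (ent v) ([] : List ℕ)) = true → fV P r p (ent v) = 1 := by
    intro v h
    rcases bif3_c h with ⟨h, _⟩ | h
    · exact (hF1 n q P hP hS r p har 31 13 hc (ent v)).1 h
    · exact Bool.noConfusion h
  have h0 : ∀ v, bif3 (okF0 (nat_lit 31) (nat_lit 13) (ent v)) true
      (List.elem (ent v) ([] : List ℕ)) = true → fV P r p (ent v) = 0 := by
    intro v h
    rcases bif3_c h with ⟨h, _⟩ | h
    · exact (hF1 n q P hP hS r p har 31 13 hc (ent v)).2 h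
    · exact Bool.noConfusion h
  have hs := init (x := fun v => fV P r p (ent v)) h1 h0
  have h01 : ∀ m, fV P r p m = 0 ∨ fV P r p m = 1 := fun m => fV01 r p m
  have hf : ∀ i π a b, okD i π a b = true → fV P r p a ≤ fV P r p b :=
    fun i π a b h => dom hP r p har.hrp i π a b h
  have hR := hRel hP har
  exact c0 h01 hf hR hs

end Pool.Agent.H70.KP.L.D110x_E01xx
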