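import Pool.Agent.H70.KP.Edg
import Pool.Agent.H70.KP.Stm
import Pool.Agent.H70.KP.RelD
import Pool.Agent.L0h93.Karp.EdgC

set_option autoImplicit false

/-! MP_257582_lc: certificate (generated). -/

namespace Pool.Agent.H70.KP.L.D1110_E000x

open Pool.Agent.H70.KP
open Pool.Agent.L0h93.Karp.M5 (gr entL gr_eq okD)
open Pool.Agent.H70.KP.R2 (RD okRT okRT_ok)

/-- table -/
noncomputable def clT_0 : Tr ℕ :=
  (.l (nat_lit 0))

/-- clauses -/
noncomputable def clT : Tr ℕ :=
  clT_0

/-- patterns -/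
noncomputable def enL : ℕ := nat_lit 0x181e101800101fe011f829001fe6107c76407c5241f86d01f9bb007dbe107fda407cfe407c38107c0240198c11fffe11f99e11f96f001ffe10199e107db8101bca11fbde11f9ff01f970207ffe107cda407c3e107c2610198011f81e11f800101bde101bc01000000

/-- pattern of a variable -/
noncomputable def ent (v : ℕ) : ℕ := entL enL v

/-- state -/
noncomputable def sT0 : ℕ := nat_lit 0x7cfdf94

/-- state -/
noncomputable def sF0 : ℕ := nat_lit 0x30206a

/-- relation -/
noncomputable def R0 : Rl :=
  .mk [nat_lit 513, nat_lit 1025, nat_lit 6913, nat_lit 8449] [nat_lit 257, nat_lit 769, nat_lit 3073, 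
  nat_lit 8705] (nat_lit 4)

/-- source -/
noncomputable def Q0 : RD :=
  .m (nat_lit 5) (nat_lit 1989600) (nat_lit 98305)
  (.c (nat_lit 480) (nat_lit 96) (.c (nat_lit 23040) (nat_lit 48) (.c (nat_lit 1966080) (nat_lit 24) 
  .nil)))
  (nat_lit 0x1006001000000001000007031002001004000005000003)
  (nat_lit 0x181e11fbde11f800101bc010180011f86d01f81e101bde1) (nat_lit 0)

/-- relation -/
noncomputable def R1 : Rl :=
  .mk [nat_lit 1281, nat_lit 1538, nat_lit 3332, nat_lit 3841, nat_lit 4097, nat_lit 4353, 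
  nat_lit 4609, nat_lit 4865, nat_lit 5634, nat_lit 5890, nat_lit 6146, nat_lit 6404, nat_lit 6660, 
  nat_lit 7172, nat_lit 7937, nat_lit 8193] [nat_lit 258, nat_lit 514, nat_lit 1794, nat_lit 2050, 
  nat_lit 2306, nat_lit 2562, nat_lit 2818, nat_lit 3074, nat_lit 3588, nat_lit 5122, nat_lit 5378, 
  nat_lit 6914, nat_lit 7428, nat_lit 7682] (nat_lit 32)

/-- source -/
noncomputable def Q1 : RD :=
  .m (nat_lit 2) (nat_lit 1981920) (nat_lit 115201)
  (.c (nat_lit 96) (nat_lit 768) (.c (nat_lit 384) (nat_lit 384) (.c (nat_lit 9216) (nat_lit 192) 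
  (.c (nat_lit 6144) (nat_lit 96) (.c (nat_lit 393216) (nat_lit 48) (.c (nat_lit 1572864) 
  (nat_lit 24) .nil))))))
  (nat_lit 0x700001400801400000400181700080b00b00b00181100101700000b00800b00101100200600001200801200200303001601800902000a00001d03080c01881c00b01800180203000c01801c00801800100201001500000100800800401903801601800a02000900801d03b00c00081802301c00a00203800c00001802001c00500200e01500000800800100201903000501801302001300000f03181b01880d02300d00181003101b01800d02000d00101003200e01801a02001a002000)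
  (nat_lit 0x1fe6107c7641f86d007c0240198c107db811fbde11f9ff01f970207ffe107cda407c3e101bde101bc0101fe011f829007c5241f9bb007dbe107fda407cfe407c3811fffe11f99e11f96f001ffe10199e101bca107c261019801) (nat_lit 0)

/-- relation -/
noncomputable def R2 : Rl :=
  .mk [nat_lit 513, nat_lit 3841, nat_lit 8193, nat_lit 8449] [nat_lit 257, nat_lit 1281, nat_lit 4097, 
  nat_lit 8705] (nat_lit 4)

/-- source -/
noncomputable def Q2 : RD :=
  .m (nat_lit 5) (nat_lit 32736) (nat_lit 98305)
  (.c (nat_lit 480) (nat_lit 96) (.c (nat_lit 23040) (nat_lit 48) (.c (nat_lit 9216) (nat_lit 24) 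
  .nil)))
  (nat_lit 0x6001000000801000007000002001004000805000003)
  (nat_lit 0x181e101ffe101980101bc0101800101fe010199e101bde1) (nat_lit 0)

/-- relations -/
noncomputable def rlT_0 : Tr Rl :=
  (.b (.b (.l R0) (.l R2)) (.l R1))

/-- sources -/
noncomputable def rdT_0 : Tr RD :=
  (.b (.b (.l Q0) (.l Q2)) (.l Q1))

theorem r_0 : okRT ent rdT_0 rlT_0 = true := by decide +kernel

/-- relations -/
noncomputable def rlT : Tr Rl :=
  rlT_0

/-- edges -/
noncomputable def E0 : ℕ := nat_lit 0x1b001f001b001c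

/-- codes -/
noncomputable def C0 : ℕ := nat_lit 0xa

theorem e0 : chkE ent (nat_lit 2) E0 C0 = true := by decide +kernel

/-- steps -/
noncomputable def I0_0 : List ℕ :=
  [nat_lit 0x200000e000002000028001002000016000001f00014000001e00016001001d00018000001c00004000001b00008]

theorem p0 : runI E0 (fun j => gr rlT j) (fun j => gr clT j)
    (fun _ _ _ => false)
    (I0_0) (nat_lit 0) sT0 sF0 = true := by decide +kernel

theorem c0 {f : ℕ → ℤ} (h01 : ∀ m, f m = 0 ∨ f m = 1)
    (hf : ∀ i π a b, okD i π a b = true → f a ≤ f b)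
    (hR : ∀ j, (gr rlT j).Hold (fun v => f (ent v)))
    (hs : Stt (fun v => f (ent v)) (fun j => gr clT j) (nat_lit 0) sT0 sF0) :
    False := by
  exact segL h01 hf ent _ _ hR e0 p0 hs

/-- variables -/
noncomputable def L0 : ℕ := nat_lit 0x1a00190018001700160013001200110010000f000e000c000b000a00090008000700040002

theorem l0 : allV (fun v => bif3 (okF1 (nat_lit 127) (nat_lit 21) (ent v)) true
    (List.elem (ent v) ([] : List ℕ))) (nat_lit 19) L0 = true := by decide +kernel

/-- variables -/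
noncomputable def L1 : ℕ := nat_lit 0x150014000d0006000500030001

theorem l1 : allV (fun v => bif3 (okF0 (nat_lit 127) (nat_lit 21) (ent v)) true
    (List.elem (ent v) ([] : List ℕ))) (nat_lit 7) L1 = true := by decide +kernel

theorem i1 : Nat.beq (mkS (nat_lit 19) L0 (nat_lit 0)) sT0 = true := by decide +kernel

theorem i2 : Nat.beq (mkS (nat_lit 7) L1 (nat_lit 0)) sF0 = true := by decide +kernel

/-- the initial state is right -/
theorem init {x : ℕ → ℤ} (h1 : ∀ v, bif3 (okF1 (nat_lit 127) (nat_lit 21) (ent v)) true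
    (List.elem (ent v) ([] : List ℕ)) = true → x v = 1)
    (h0 : ∀ v, bif3 (okF0 (nat_lit 127) (nat_lit 21) (ent v)) true
    (List.elem (ent v) ([] : List ℕ)) = true → x v = 0) :
    Stt x (fun j => gr clT j) (nat_lit 0) sT0 sF0 := by
  have e1 := Nat.eq_of_beq_eq_true i1
  have e2 := Nat.eq_of_beq_eq_true i2
  rw [← e1, ← e2]
  refine ⟨fun j hj => absurd hj (Nat.not_lt_zero j), ?_⟩
  refine mkS_okT _ h1 _ _ _ _ l0 ?_
  refine mkS_okF _ h0 _ _ _ _ l1 ?_
  exact Ok.zero x

open Pool.Agent.H119R2.Kp Pool.Agent.N593.Karp Pool.Agent.L0h93.Karp Pool.Agent.L0h93.Karp.M5 in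
/-- the relations hold -/
theorem hRel {n q : ℕ} {P : SimpleGraph (Fin n) → Prop} (hP : GP n q P) {r p : ℕ}
    (har : Ar n q r p) (j : ℕ) : (gr rlT j).Hold (fun v => fV P r p (ent v)) := by
  rw [gr_eq]
  refine Tr.get_all _ rlT ?_ j
  exact okRT_ok hP har ent _ _ r_0

open Pool.Agent.H119R2.Kp Pool.Agent.N593.Karp Pool.Agent.L0h93.Karp Pool.Agent.L0h93.Karp.M5 in
/-- **the case is impossible** -/
theorem leaf (hF1 : S_F1) {n q : ℕ} {P : SimpleGraph (Fin n) → Prop} (hP : GP n q P)
    (hS : Star n P) {r p : ℕ} (har : Ar n q r p) (hc : Cse P r p 127 21) : False := by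
  have h1 : ∀ v, bif3 (okF1 (nat_lit 127) (nat_lit 21) (ent v)) true
      (List.elem (ent v) ([] : List ℕ)) = true → fV P r p (ent v) = 1 := by
    intro v h
    rcases bif3_c h with ⟨h, _⟩ | h
    · exact (hF1 n q P hP hS r p har 127 21 hc (ent v)).1 h
    · exact Bool.noConfusion h
  have h0 : ∀ v, bif3 (okF0 (nat_lit 127) (nat_lit 21) (ent v)) true
      (List.elem (ent v) ([] : List ℕ)) = true → fV P r p (ent v) = 0 := by
    intro v h
    rcases bif3_c h with ⟨h, _⟩ | h
    · exact (hF1 n q P hP hS r p har 127 21 hc (ent v)).2 h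
    · exact Bool.noConfusion h
  have hs := init (x := fun v => fV P r p (ent v)) h1 h0
  have h01 : ∀ m, fV P r p m = 0 ∨ fV P r p m = 1 := fun m => fV01 r p m
  have hf : ∀ i π a b, okD i π a b = true → fV P r p a ≤ fV P r p b :=
    fun i π a b h => dom hP r p har.hrp i π a b h
  have hR := hRel hP har
  exact c0 h01 hf hR hs

end Pool.Agent.H70.KP.L.D1110_E000x
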