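import Pool.Agent.H70.KP.Edg
import Pool.Agent.H70.KP.Stm
import Pool.Agent.H70.KP.RelD
import Pool.Agent.L0h93.Karp.EdgC

set_option autoImplicit false

/-! MP_257582_lc: certificate (generated). -/

namespace Pool.Agent.H70.KP.L.D1111_E0001

open Pool.Agent.H70.KP
open Pool.Agent.L0h93.Karp.M5 (gr entL gr_eq okD)
open Pool.Agent.H70.KP.R2 (RD okRT okRT_ok)

/-- table -/
noncomputable def clT_0 : Tr ℕ :=
  (.l (nat_lit 0))

/-- clauses -/
noncomputable def clT : Tr ℕ :=
  clT_0

/-- patterns -/
noncomputable def enL : ℕ := nat_lit 0x3dfe0019fe033fe30336e30007ec0003e6033243033da3000fcc00172c033483033023000078031fc3001fc30016e30316c3001766031b430319230003980312630000e60002860310030306e30006c3000263030243003fe7033fc70017e70336c70332670001e7033da7000fdc0334a70003ba000387033007031fe7031b670007cd0316e70006ed0002e7031247031b6b0007dc0017070319070002ee03124b03102700002d000fe7030fc7000fc70006e70306c70302670000670006f30306d303026b00006e0000270300070371e30301c3037fc3003ff800000300077b001fef001717001bfe001baf000fef007fe3001711000fe3003fe3001fe3001fe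7037023037003001b8f000fcf0006ef0003fe00007e00002f007fef0006cf00028f00075b0002af003ffb001fcf00039e00027b0016ef0001fe00000f030fe30002e60007cc031b630312430000660006e30306c30302630003b80006ec0017060017e603102300002c0316e3031903031fe30334a30336c3033fc30001e6033d83000386033263033003001fcc003de60000230016e700172d001767001776001fc70006c700039a03024b0306e700028700026b0007ed03126703126b0316c7031927031b47031b4b031fc70000ee0334870336e70000e70310070003e70002670006d3000079001fdc003de70000070302470306f3030fe7033027033247033d87033fe70300270371c30301e3037fe3030023030fc3030003000fc3000278000000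

/-- pattern of a variable -/
noncomputable def ent (v : ℕ) : ℕ := entL enL v

/-- state -/
noncomputable def sT0 : ℕ := nat_lit 0x108100009000000200c4dd0

/-- state -/
noncomputable def sF0 : ℕ := nat_lit 0x7ef7effff6ffffffdff3b22e

/-- relation -/
noncomputable def R0 : Rl :=
  .mk [nat_lit 1025, nat_lit 24321, nat_lit 27905, nat_lit 28161] [nat_lit 257, nat_lit 513, 
  nat_lit 769, nat_lit 28417] (nat_lit 4)

/-- source -/
noncomputable def Q0 : RD :=
  .m (nat_lit 4) (nat_lit 229312) (nat_lit 3)
  (.c (nat_lit 4032) (nat_lit 96) (.c (nat_lit 28672) (nat_lit 48) (.c (nat_lit 196608) (nat_lit 24) 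
  .nil)))
  (nat_lit 0x702d00300000000000500000102d004000006000002)
  (nat_lit 0x37fc3030003000fc3000278003ff8000003037003030fc3) (nat_lit 0)

/-- relation -/
noncomputable def R1 : Rl :=
  .mk [nat_lit 769, nat_lit 1025, nat_lit 1537, nat_lit 1794, nat_lit 2050, nat_lit 24577] [nat_lit 1281, 
  nat_lit 19457, nat_lit 24321, nat_lit 28417, nat_lit 28674, nat_lit 28930] (nat_lit 8)

/-- source -/
noncomputable def Q1 : RD :=
  .m (nat_lit 3) (nat_lit 32736) (nat_lit 196611)
  (.c (nat_lit 32) (nat_lit 192) (.c (nat_lit 448) (nat_lit 96) (.c (nat_lit 3584) (nat_lit 48) 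
  (.c (nat_lit 28672) (nat_lit 24) .nil))))
  (nat_lit 0x200000700000b00000300c00b00c00300000500000600000900000100000400000a00c00400c00a000008000000)
  (nat_lit 0x371e30301c3037fc3037003030fe30300230370230371c30301e3037fe3030fc3030003) (nat_lit 0)

/-- relation -/
noncomputable def R2 : Rl :=
  .mk [nat_lit 2305, nat_lit 3073, nat_lit 3329, nat_lit 3841, nat_lit 4097, nat_lit 4353, 
  nat_lit 5121, nat_lit 5377, nat_lit 5633, nat_lit 5889, nat_lit 6146, nat_lit 6402, nat_lit 6658, 
  nat_lit 6914, nat_lit 7170, nat_lit 7682, nat_lit 7938, nat_lit 8194, nat_lit 8450, nat_lit 8706, 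
  nat_lit 8962, nat_lit 9218, nat_lit 9474, nat_lit 9730, nat_lit 9986, nat_lit 10242, nat_lit 10498, 
  nat_lit 10754, nat_lit 11010, nat_lit 11266, nat_lit 11522, nat_lit 11778, nat_lit 12034, 
  nat_lit 32001, nat_lit 32257, nat_lit 36098, nat_lit 37377, nat_lit 37633, nat_lit 38913, 
  nat_lit 39169] [nat_lit 2561, nat_lit 2817, nat_lit 3585, nat_lit 4609, nat_lit 4865, nat_lit 7426, 
  nat_lit 24834, nat_lit 29185, nat_lit 29441, nat_lit 29698, nat_lit 29954, nat_lit 30209, 
  nat_lit 30465, nat_lit 30721, nat_lit 30977, nat_lit 31234, nat_lit 31490, nat_lit 31745, 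
  nat_lit 32514, nat_lit 32770, nat_lit 33026, nat_lit 33282, nat_lit 33538, nat_lit 33794, 
  nat_lit 34050, nat_lit 34306, nat_lit 34562, nat_lit 34818, nat_lit 35074, nat_lit 35330, 
  nat_lit 35586, nat_lit 35842, nat_lit 36353, nat_lit 36609, nat_lit 36866, nat_lit 37122, 
  nat_lit 37889, nat_lit 38145, nat_lit 38402, nat_lit 38658] (nat_lit 64)

/-- source -/
noncomputable def Q2 : RD :=
  .m (nat_lit 1) (nat_lit 1605088) (nat_lit 25)
  (.c (nat_lit 32) (nat_lit 1536) (.c (nat_lit 64) (nat_lit 768) (.c (nat_lit 384) (nat_lit 384) 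
  (.c (nat_lit 3072) (nat_lit 192) (.c (nat_lit 12288) (nat_lit 96) (.c (nat_lit 16384) (nat_lit 48) 
  (.c (nat_lit 1572864) (nat_lit 24) .nil)))))))
  (nat_lit 0x2002800802702002600802b02000c00804f02004e00201502300c00b04f02304e00901502004d00800902000100804c02002503002c02002901802402004b00201f02000d00c04a02304b00901f02300d00f04a02000200804902004800000602002302002e02002d02001c02004500802002001200204402004700b01e02001000904602001400804302004200800b02c04103201d02c00f03004002c01302603d02c03c00e00e02001100b03f02003e00f01a02003b00801702000a00203a02302302302e02302d02301c02304700801e02301000204602304500b02002301200904402301400b04302304200b00b02f04103901d02f00f03304002301100803f02303e00c01a02f01302d03d02f03c01500e02303b00b01702300a00903a02002a02002202002102003902001802003802003702001b02301802303802303702301b02003600800802000400803503800303803403803303800702c03202c01602c01902603102f03202f01602f01902d03102000002003002002f008005)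
  (nat_lit 0x17e70336c70332670001e70334a70003ba000387033007031b670007cd0316e70006ed0002e7031247031b6b0007dc0017070319070002ee03124b03102700002d000fc70006e70306c70302670000670006f30306d303026b00006e000027030007001fe7031fc7001fdc003de7030fe7033d87033fe7003fe7033fc7033da7000fdc031fe7000fe7030fc70016e700172d001767001776001fc70006c700039a03024b0306e700028700026b0007ed03126703126b0316c7031927031b47031b4b0000ee0334870336e70000e70310070003e70002670006d30000790000070302470306f3033027033247030027) (nat_lit 0)

/-- relation -/
noncomputable def R3 : Rl :=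
  .mk [nat_lit 1025, nat_lit 1281, nat_lit 14337, nat_lit 15106, nat_lit 25345, nat_lit 25601, 
  nat_lit 27905, nat_lit 39427, nat_lit 39683, nat_lit 39939, nat_lit 40195, nat_lit 40450, 
  nat_lit 40706, nat_lit 40964, nat_lit 41220, nat_lit 41474, nat_lit 41730, nat_lit 41988, 
  nat_lit 42244, nat_lit 42498, nat_lit 42754, nat_lit 43010, nat_lit 43521, nat_lit 43777, 
  nat_lit 44034, nat_lit 44290, nat_lit 44545, nat_lit 44801, nat_lit 45057, nat_lit 45313, 
  nat_lit 45570, nat_lit 45826] [nat_lit 513, nat_lit 769, nat_lit 12289, nat_lit 12545, 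
  nat_lit 12801, nat_lit 13057, nat_lit 13313, nat_lit 13569, nat_lit 13825, nat_lit 14081, 
  nat_lit 14594, nat_lit 14850, nat_lit 15362, nat_lit 15618, nat_lit 15874, nat_lit 16130, 
  nat_lit 16386, nat_lit 16642, nat_lit 16898, nat_lit 17154, nat_lit 17411, nat_lit 17667, 
  nat_lit 17923, nat_lit 18179, nat_lit 18436, nat_lit 18692, nat_lit 18948, nat_lit 19204, 
  nat_lit 19457, nat_lit 25090, nat_lit 43266, nat_lit 46081] (nat_lit 64)

/-- source -/
noncomputable def Q3 : RD :=
  .m (nat_lit 1) (nat_lit 1605088) (nat_lit 24)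
  (.c (nat_lit 32) (nat_lit 1536) (.c (nat_lit 64) (nat_lit 768) (.c (nat_lit 384) (nat_lit 384) 
  (.c (nat_lit 3072) (nat_lit 192) (.c (nat_lit 12288) (nat_lit 96) (.c (nat_lit 16384) (nat_lit 48) 
  (.c (nat_lit 1572864) (nat_lit 24) .nil)))))))
  (nat_lit 0x2003f02000402000200802302001f00803002002a00201e02301f00b03002302a00901e02002600801d02001c00802902001b03002402002803001a02002b00201902001800c03302302b00901902301800f03302001700802702002500001602000302003d02003e02001502002d02001402001300203202003900b01202001100903a02000e00803b02003800800d02c03903201202c01103003a02c00e02603b02c03802600d02001000b03102002c00f00f02002f00800c02000b00202e02300302303d02303e02301502303900801202301100203a02302d02301402301300903202300e00b03b02303800b00d02f03903901202f01103303a02301000803102302c00c00f02f00e02d03b02f03802d00d02302f00b00c02300b00902e02003c02000502000002002002000a02003602003502000902300a02303602303502300902003402000802000700803703800a03803603803503800902c03402c00802c00702603702f03402f00802f00702d037020001020022020021020006)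
  (nat_lit 0x33fe3031fc3001fe3030fe30002e60007cc031b630312430000660006e30306c30302630003b80006ec0017060017e603102300002c0316e30319030334a30336c30001e6033d83000386033263033003001fcc003de6000023030003000fc30336e30007ec0003e6033243033da3000fcc00172c033483033023000078001fc30016e30316c3001766031b430319230003980312630000e60002860310030306e30006c3000263030243000003000fe3003fe3031fe3033fc3030023030fc3) (nat_lit 0)

/-- relation -/
noncomputable def R4 : Rl :=
  .mk [nat_lit 12289, nat_lit 19457, nat_lit 24577, nat_lit 26113] [nat_lit 1281, nat_lit 1537, 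
  nat_lit 25601, nat_lit 25857] (nat_lit 4)

/-- source -/
noncomputable def Q4 : RD :=
  .m (nat_lit 4) (nat_lit 229312) (nat_lit 35)
  (.c (nat_lit 4032) (nat_lit 96) (.c (nat_lit 28672) (nat_lit 48) (.c (nat_lit 196608) (nat_lit 24) 
  .nil)))
  (nat_lit 0x5000003000001000006000002009007000004000000)
  (nat_lit 0x1711000fe3037fe3030023007fe3037023030fe3000023) (nat_lit 0)

/-- relation -/
noncomputable def R5 : Rl :=
  .mk [nat_lit 19713, nat_lit 19969, nat_lit 20225, nat_lit 20482, nat_lit 20738, nat_lit 20994, 
  nat_lit 21508, nat_lit 21764, nat_lit 22529, nat_lit 26370, nat_lit 26628, nat_lit 26884] [nat_lit 21250, 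
  nat_lit 22017, nat_lit 22273, nat_lit 22786, nat_lit 23042, nat_lit 23298, nat_lit 23554, 
  nat_lit 23810, nat_lit 24068, nat_lit 27138, nat_lit 27394, nat_lit 27652, nat_lit 46337, 
  nat_lit 46593] (nat_lit 28)

/-- source -/
noncomputable def Q5 : RD :=
  .m (nat_lit 2) (nat_lit 32736) (nat_lit 30)
  (.c (nat_lit 96) (nat_lit 768) (.c (nat_lit 384) (nat_lit 384) (.c (nat_lit 512) (nat_lit 192) 
  (.c (nat_lit 9216) (nat_lit 96) (.c (nat_lit 6144) (nat_lit 48) (.c (nat_lit 16384) (nat_lit 24) 
  .nil))))))
  (nat_lit 0x3000801800c00181900080b00101900000b00201800001102000c00001900b00b00081800800b00001800801100000103001603000903080a01881703000a01801702801501800303000503001303081401880703001401800700800400001003801603800503b00a03b01403800a03801402601500000403800903801302301702300702001702000702000300801003000203001203180e03080603100e03000603200d03000f03801203000e03b00603080d03800603000d03800f030000)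
  (nat_lit 0x3dfe0019fe00077b001fef001717001b8f000fcf0006ef0003fe00007e00002f0006cf00028f003ffb001bfe001baf000fef007fef00075b0002af001fcf00039e00027b0016ef0001fe00000f) (nat_lit 0)

/-- relations -/
noncomputable def rlT_0 : Tr Rl :=
  (.b (.b (.b (.l R0) (.l R4)) (.l R2)) (.b (.b (.l R1) (.l R5)) (.l R3)))

/-- sources -/
noncomputable def rdT_0 : Tr RD :=
  (.b (.b (.b (.l Q0) (.l Q4)) (.l Q2)) (.b (.b (.l Q1) (.l Q5)) (.l Q3)))

theorem r_0 : okRT ent rdT_0 rlT_0 = true := by decide +kernel

/-- relations -/
noncomputable def rlT : Tr Rl :=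
  rlT_0

/-- edges -/
noncomputable def E0 : ℕ := nat_lit 0x61006c0066006b0066006a0066006800630067006000650061006400610062

/-- codes -/
noncomputable def C0 : ℕ := nat_lit 0x61a808c280a0c0900000

theorem e0 : chkE ent (nat_lit 8) E0 C0 = true := by decide +kernel

/-- steps -/
noncomputable def I0_0 : List ℕ :=
  [nat_lit 0x670000e000006700056000006c00074000006b00064000006a00054001006900056000006800044000006700034000006600048000006500024000006400014000006300038000006200004001006100028000006000018000005f00008]

theorem p0 : runI E0 (fun j => gr rlT j) (fun j => gr clT j)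
    (fun _ _ _ => false)
    (I0_0) (nat_lit 0) sT0 sF0 = true := by decide +kernel

theorem c0 {f : ℕ → ℤ} (h01 : ∀ m, f m = 0 ∨ f m = 1)
    (hf : ∀ i π a b, okD i π a b = true → f a ≤ f b)
    (hR : ∀ j, (gr rlT j).Hold (fun v => f (ent v)))
    (hs : Stt (fun v => f (ent v)) (fun j => gr clT j) (nat_lit 0) sT0 sF0) :
    False := by
  exact segL h01 hf ent _ _ hR e0 p0 hs

/-- variables -/
noncomputable def L0 : ℕ := nat_lit 0x580053004c003b0038001d00130012000e000b000a0008000700060004

theorem l0 : allV (fun v => bif3 (okF1 (nat_lit 255) (nat_lit 213) (ent v)) true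
    (List.elem (ent v) ([] : List ℕ))) (nat_lit 15) L0 = true := by decide +kernel

/-- variables -/
noncomputable def L1 : ℕ := nat_lit 0x5e005d005c005b005a00590057005600550054005200510050004f004e004d004b004a0049004800470046004500440043004200410040003f003e003d003c003a003900370036003500340033003200310030002f002e002d002c002b002a0029002800270026002500240023002200210020001f001e001c001b001a00190018001700160015001400110010000f000d000c00090005000300020001

theorem l1 : allV (fun v => bif3 (okF0 (nat_lit 255) (nat_lit 213) (ent v)) true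
    (List.elem (ent v) ([] : List ℕ))) (nat_lit 79) L1 = true := by decide +kernel

theorem i1 : Nat.beq (mkS (nat_lit 15) L0 (nat_lit 0)) sT0 = true := by decide +kernel

theorem i2 : Nat.beq (mkS (nat_lit 79) L1 (nat_lit 0)) sF0 = true := by decide +kernel

/-- the initial state is right -/
theorem init {x : ℕ → ℤ} (h1 : ∀ v, bif3 (okF1 (nat_lit 255) (nat_lit 213) (ent v)) true
    (List.elem (ent v) ([] : List ℕ)) = true → x v = 1)
    (h0 : ∀ v, bif3 (okF0 (nat_lit 255) (nat_lit 213) (ent v)) true
    (List.elem (ent v) ([] : List ℕ)) = true → x v = 0) :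
    Stt x (fun j => gr clT j) (nat_lit 0) sT0 sF0 := by
  have e1 := Nat.eq_of_beq_eq_true i1
  have e2 := Nat.eq_of_beq_eq_true i2
  rw [← e1, ← e2]
  refine ⟨fun j hj => absurd hj (Nat.not_lt_zero j), ?_⟩
  refine mkS_okT _ h1 _ _ _ _ l0 ?_
  refine mkS_okF _ h0 _ _ _ _ l1 ?_
  exact Ok.zero x

open Pool.Agent.H119R2.Kp Pool.Agent.N593.Karp Pool.Agent.L0h93.Karp Pool.Agent.L0h93.Karp.M5 in
/-- the relations hold -/
theorem hRel {n q : ℕ} {P : SimpleGraph (Fin n) → Prop} (hP : GP n q P) {r p : ℕ}
    (har : Ar n q r p) (j : ℕ) : (gr rlT j).Hold (fun v => fV P r p (ent v)) := by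
  rw [gr_eq]
  refine Tr.get_all _ rlT ?_ j
  exact okRT_ok hP har ent rdT_0 rlT_0 r_0

open Pool.Agent.H119R2.Kp Pool.Agent.N593.Karp Pool.Agent.L0h93.Karp Pool.Agent.L0h93.Karp.M5 in
/-- **the case is impossible** -/
theorem leaf (hF1 : S_F1) {n q : ℕ} {P : SimpleGraph (Fin n) → Prop} (hP : GP n q P)
    (hS : Star n P) {r p : ℕ} (har : Ar n q r p) (hc : Cse P r p 255 213) : False := by
  have h1 : ∀ v, bif3 (okF1 (nat_lit 255) (nat_lit 213) (ent v)) true
      (List.elem (ent v) ([] : List ℕ)) = true → fV P r p (ent v) = 1 := by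
    intro v h
    rcases bif3_c h with ⟨h, _⟩ | h
    · exact (hF1 n q P hP hS r p har 255 213 hc (ent v)).1 h
    · exact Bool.noConfusion h
  have h0 : ∀ v, bif3 (okF0 (nat_lit 255) (nat_lit 213) (ent v)) true
      (List.elem (ent v) ([] : List ℕ)) = true → fV P r p (ent v) = 0 := by
    intro v h
    rcases bif3_c h with ⟨h, _⟩ | h
    · exact (hF1 n q P hP hS r p har 255 213 hc (ent v)).2 h
    · exact Bool.noConfusion h
  have hs := init (x := fun v => fV P r p (ent v)) h1 h0
  have h01 : ∀ m, fV P r p m = 0 ∨ fV P r p m = 1 := fun m => fV01 r p m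
  have hf : ∀ i π a b, okD i π a b = true → fV P r p a ≤ fV P r p b :=
    fun i π a b h => dom hP r p har.hrp i π a b h
  have hR := hRel hP har
  exact c0 h01 hf hR hs

end Pool.Agent.H70.KP.L.D1111_E0001
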