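import Pool.Agent.H70.KP.Edg
import Pool.Agent.H70.KP.Stm
import Pool.Agent.H70.KP.RelD
import Pool.Agent.L0h93.Karp.EdgC

set_option autoImplicit false

/-! MP_257582_lc: certificate (generated). -/

namespace Pool.Agent.H70.KP.L.D111x_E001x

open Pool.Agent.H70.KP
open Pool.Agent.L0h93.Karp.M5 (gr entL gr_eq okD)
open Pool.Agent.H70.KP.R2 (RD okRT okRT_ok)

/-- table -/
noncomputable def clT_0 : Tr ℕ :=
  (.l (nat_lit 0))

/-- clauses -/
noncomputable def clT : Tr ℕ :=
  clT_0

/-- patterns -/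
noncomputable def enL : ℕ := nat_lit 0xf7fef0f16ef00000f0f690f0f6fcf0f6b8f0f06cf0f028f0f000f003dfe0006cf0001fe000000

/-- pattern of a variable -/
noncomputable def ent (v : ℕ) : ℕ := entL enL v

/-- state -/
noncomputable def sT0 : ℕ := nat_lit 0x188

/-- state -/
noncomputable def sF0 : ℕ := nat_lit 0x76

/-- relation -/
noncomputable def R0 : Rl :=
  .mk [nat_lit 769, nat_lit 1537, nat_lit 2305, nat_lit 2561] [nat_lit 257, nat_lit 513, nat_lit 1025, 
  nat_lit 2049] (nat_lit 4)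

/-- source -/
noncomputable def Q0 : RD :=
  .m (nat_lit 5) (nat_lit 1989600) (nat_lit 30)
  (.c (nat_lit 480) (nat_lit 96) (.c (nat_lit 23040) (nat_lit 48) (.c (nat_lit 1966080) (nat_lit 24) 
  .nil)))
  (nat_lit 0x31007001000030002000004031001031005030006030003)
  (nat_lit 0xf6fcf0f000f0006cf0001fe00000f0f690f0f06cf003dfe) (nat_lit 0)

/-- relation -/
noncomputable def R1 : Rl :=
  .mk [nat_lit 1025, nat_lit 1793, nat_lit 2049, nat_lit 2817] [nat_lit 1281, nat_lit 1537, 
  nat_lit 2305, nat_lit 3073] (nat_lit 4)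

/-- source -/
noncomputable def Q1 : RD :=
  .m (nat_lit 5) (nat_lit 32736) (nat_lit 1966110)
  (.c (nat_lit 480) (nat_lit 96) (.c (nat_lit 23040) (nat_lit 48) (.c (nat_lit 9216) (nat_lit 24) 
  .nil)))
  (nat_lit 0x30007031002030801030006030003031005030804030000)
  (nat_lit 0xf7fef0f690f0f06cf0f028f0f16ef0f6fcf0f6b8f0f000f) (nat_lit 0)

/-- relations -/
noncomputable def rlT_0 : Tr Rl :=
  (.b (.l R0) (.l R1))

/-- sources -/
noncomputable def rdT_0 : Tr RD :=
  (.b (.l Q0) (.l Q1))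

theorem r_0 : okRT ent rdT_0 rlT_0 = true := by decide +kernel

/-- relations -/
noncomputable def rlT : Tr Rl :=
  rlT_0

/-- edges -/
noncomputable def E0 : ℕ := nat_lit 0x0

/-- codes -/
noncomputable def C0 : ℕ := nat_lit 0x0

theorem e0 : chkE ent (nat_lit 0) E0 C0 = true := by decide +kernel

/-- steps -/
noncomputable def I0_0 : List ℕ :=
  [nat_lit 0x40000e000000400016000000900008]

theorem p0 : runI E0 (fun j => gr rlT j) (fun j => gr clT j)
    (fun _ _ _ => false)
    (I0_0) (nat_lit 0) sT0 sF0 = true := by decide +kernel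

theorem c0 {f : ℕ → ℤ} (h01 : ∀ m, f m = 0 ∨ f m = 1)
    (hf : ∀ i π a b, okD i π a b = true → f a ≤ f b)
    (hR : ∀ j, (gr rlT j).Hold (fun v => f (ent v)))
    (hs : Stt (fun v => f (ent v)) (fun j => gr clT j) (nat_lit 0) sT0 sF0) :
    False := by
  exact segL h01 hf ent _ _ hR e0 p0 hs

/-- variables -/
noncomputable def L0 : ℕ := nat_lit 0x800070003

theorem l0 : allV (fun v => bif3 (okF1 (nat_lit 63) (nat_lit 53) (ent v)) true
    (List.elem (ent v) ([] : List ℕ))) (nat_lit 3) L0 = true := by decide +kernel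

/-- variables -/
noncomputable def L1 : ℕ := nat_lit 0x60005000400020001

theorem l1 : allV (fun v => bif3 (okF0 (nat_lit 63) (nat_lit 53) (ent v)) true
    (List.elem (ent v) ([] : List ℕ))) (nat_lit 5) L1 = true := by decide +kernel

theorem i1 : Nat.beq (mkS (nat_lit 3) L0 (nat_lit 0)) sT0 = true := by decide +kernel

theorem i2 : Nat.beq (mkS (nat_lit 5) L1 (nat_lit 0)) sF0 = true := by decide +kernel

/-- the initial state is right -/
theorem init {x : ℕ → ℤ} (h1 : ∀ v, bif3 (okF1 (nat_lit 63) (nat_lit 53) (ent v)) true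
    (List.elem (ent v) ([] : List ℕ)) = true → x v = 1)
    (h0 : ∀ v, bif3 (okF0 (nat_lit 63) (nat_lit 53) (ent v)) true
    (List.elem (ent v) ([] : List ℕ)) = true → x v = 0) :
    Stt x (fun j => gr clT j) (nat_lit 0) sT0 sF0 := by
  have e1 := Nat.eq_of_beq_eq_true i1
  have e2 := Nat.eq_of_beq_eq_true i2
  rw [← e1, ← e2]
  refine ⟨fun j hj => absurd hj (Nat.not_lt_zero j), ?_⟩
  refine mkS_okT _ h1 _ _ _ _ l0 ?_
  refine mkS_okF _ h0 _ _ _ _ l1 ?_
  exact Ok.zero x

open Pool.Agent.H119R2.Kp Pool.Agent.N593.Karp Pool.Agent.L0h93.Karp Pool.Agent.L0h93.Karp.M5 in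
/-- the relations hold -/
theorem hRel {n q : ℕ} {P : SimpleGraph (Fin n) → Prop} (hP : GP n q P) {r p : ℕ}
    (har : Ar n q r p) (j : ℕ) : (gr rlT j).Hold (fun v => fV P r p (ent v)) := by
  rw [gr_eq]
  refine Tr.get_all _ rlT ?_ j
  exact okRT_ok hP har ent _ _ r_0

open Pool.Agent.H119R2.Kp Pool.Agent.N593.Karp Pool.Agent.L0h93.Karp Pool.Agent.L0h93.Karp.M5 in
/-- **the case is impossible** -/
theorem leaf (hF1 : S_F1) {n q : ℕ} {P : SimpleGraph (Fin n) → Prop} (hP : GP n q P)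
    (hS : Star n P) {r p : ℕ} (har : Ar n q r p) (hc : Cse P r p 63 53) : False := by
  have h1 : ∀ v, bif3 (okF1 (nat_lit 63) (nat_lit 53) (ent v)) true
      (List.elem (ent v) ([] : List ℕ)) = true → fV P r p (ent v) = 1 := by
    intro v h
    rcases bif3_c h with ⟨h, _⟩ | h
    · exact (hF1 n q P hP hS r p har 63 53 hc (ent v)).1 h
    · exact Bool.noConfusion h
  have h0 : ∀ v, bif3 (okF0 (nat_lit 63) (nat_lit 53) (ent v)) true
      (List.elem (ent v) ([] : List ℕ)) = true → fV P r p (ent v) = 0 := by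
    intro v h
    rcases bif3_c h with ⟨h, _⟩ | h
    · exact (hF1 n q P hP hS r p har 63 53 hc (ent v)).2 h
    · exact Bool.noConfusion h
  have hs := init (x := fun v => fV P r p (ent v)) h1 h0
  have h01 : ∀ m, fV P r p m = 0 ∨ fV P r p m = 1 := fun m => fV01 r p m
  have hf : ∀ i π a b, okD i π a b = true → fV P r p a ≤ fV P r p b :=
    fun i π a b h => dom hP r p har.hrp i π a b h
  have hR := hRel hP har
  exact c0 h01 hf hR hs

end Pool.Agent.H70.KP.L.D111x_E001x
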